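import Mathlib

/-!
# Entropy bounds for transfer matrices: definitions and statements
-/

open MeasureTheory

namespace Pool.Agent.N899.SB

noncomputable section

/-! ### Part 1: entropy of a random subset -/

section ent

variable {ι : Type*} [DecidableEq ι]

/-- the probability of the subset `T` of `s`, if the points `i` are chosen independently with the
probabilities `w i` -/
def wt (s : Finset ι) (w : ι → ℝ) (T : Finset ι) : ℝ :=
  (∏ i ∈ T, w i) * ∏ i ∈ s \ T, (1 - w i)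

/-- the entropy -/
def ent (s : Finset ι) (p : Finset ι → ℝ) : ℝ := -∑ T ∈ s.powerset, p T * Real.log (p T)

/-- the entropy of one point -/
def h2 (x : ℝ) : ℝ := -(x * Real.log x + (1 - x) * Real.log (1 - x))

/-- an expectation -/
structure Exq {X : Type*} [TopologicalSpace X] (E : (X → ℝ) → ℝ) : Prop where
  add : ∀ F H : X → ℝ, Continuous F → Continuous H → E (fun x => F x + H x) = E F + E H
  smul : ∀ (c : ℝ) (F : X → ℝ), E (fun x => c * F x) = c * E F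
  nonneg : ∀ F : X → ℝ, (∀ x, 0 ≤ F x) → 0 ≤ E F
  one : E (fun _ => 1) = 1

end ent

/-- CHAIN RULE. -/
def S_CHAIN : Prop := ∀ (X : Type) [TopologicalSpace X] (E : (X → ℝ) → ℝ), Exq E →
  ∀ (ι : Type) [DecidableEq ι] (s : Finset ι) (w : ι → X → ℝ) (v : ι → ℝ),
  (∀ i, Continuous (w i)) → (∀ i x, 1 / 4 ≤ w i x ∧ w i x ≤ 3 / 4) →
  (∀ i ∈ s, ∀ γ : (ι → ℝ) → ℝ, Continuous γ →
    (∀ a b : ι → ℝ, (∀ j, j ≠ i → a j = b j) → γ a = γ b) →
    v i ≤ E (fun x => (w i x - γ (fun j => w j x)) ^ 2)) →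
  ∑ i ∈ s, (E (fun x => h2 (w i x)) + 2 * v i) ≤
    ent s (fun T => E (fun x => wt s (fun i => w i x) T))

/-- CROSS ENTROPY of two points. -/
def S_CROSS : Prop := ∀ p q : ℝ, 1 / 4 ≤ p → p ≤ 3 / 4 → 1 / 4 ≤ q → q ≤ 3 / 4 →
  -(p * Real.log q + (1 - p) * Real.log (1 - q)) ≤ h2 p + 16 / 3 * (p - q) ^ 2

/-- ENTROPIC INEQUALITY. -/
def S_ENTROPIC : Prop := ∀ (Y : Type) [TopologicalSpace Y] [CompactSpace Y]
  [SecondCountableTopology Y] [MeasurableSpace Y] [BorelSpace Y] (μ : Measure Y)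
  [IsProbabilityMeasure μ] (k1 k2 : Y → Y → ℝ),
  Continuous (fun p : Y × Y => k1 p.1 p.2) → Continuous (fun p : Y × Y => k2 p.1 p.2) →
  (∀ u v, 0 < k1 u v) → (∀ u v, 0 < k2 u v) →
  (∀ u v, k1 u v ^ 2 ≤ k1 u u * k1 v v) → (∀ u v, k2 u v ^ 2 ≤ k2 u u * k2 v v) →
  ∀ (ι : Type) [DecidableEq ι] (s : Finset ι) (w : ι → Y → ℝ),
  (∀ i, Continuous (w i)) → (∀ i x, 1 / 4 ≤ w i x ∧ w i x ≤ 3 / 4) →
  ∀ (Z : ℝ) (E : (Y → Y → ℝ) → ℝ), Z = ∫ u, ∫ v, k1 u v * k2 v u ∂μ ∂μ →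
  (∀ F : Y → Y → ℝ, E F = (∫ u, ∫ v, F u v * (k1 u v * k2 v u) ∂μ ∂μ) / Z) →
  ent s (fun T => E (fun u _ => wt s (fun i => w i u) T)) +
    ∑ i ∈ s, E (fun u v => w i u * Real.log (w i v) + (1 - w i u) * Real.log (1 - w i v)) ≤
    Real.log ((∫ u, k1 u u ∂μ) * (∫ u, k2 u u ∂μ) / Z)

/-! ### Part 2: iterates of a kernel -/

section ker

variable {Y : Type*} [MeasurableSpace Y]

/-- the iterates of a kernel: `kit μ k n` is the power `n + 1` -/
def kit (μ : Measure Y) (k : Y → Y → ℝ) : ℕ → Y → Y → ℝ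
  | 0 => k
  | n + 1 => fun u v => ∫ w, k u w * kit μ k n w v ∂μ

/-- the trace of the power `n + 1` -/
def trk (μ : Measure Y) (k : Y → Y → ℝ) (n : ℕ) : ℝ := ∫ u, kit μ k n u u ∂μ

end ker

/-- PROPERTIES OF THE ITERATES. -/
def S_KIT : Prop := ∀ (Y : Type) [TopologicalSpace Y] [CompactSpace Y]
  [SecondCountableTopology Y] [MeasurableSpace Y] [BorelSpace Y] (μ : Measure Y)
  [IsProbabilityMeasure μ] (k : Y → Y → ℝ), Continuous (fun p : Y × Y => k p.1 p.2) →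
  (∀ u v, 0 < k u v) → (∀ u v, k u v = k v u) →
  (∀ n, Continuous (fun p : Y × Y => kit μ k n p.1 p.2)) ∧ (∀ n u v, 0 < kit μ k n u v) ∧
  (∀ n u v, kit μ k n u v = kit μ k n v u) ∧
  (∀ a b u v, ∫ w, kit μ k a u w * kit μ k b w v ∂μ = kit μ k (a + b + 1) u v) ∧
  (∀ a u v, kit μ k (2 * a + 1) u v ^ 2 ≤ kit μ k (2 * a + 1) u u * kit μ k (2 * a + 1) v v) ∧
  (∀ a b, trk μ k (2 * a + 1 + (2 * b + 1) + 1) ≤ trk μ k (2 * a + 1) * trk μ k (2 * b + 1)) ∧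
  (∀ a, trk μ k (2 * a + 3) ^ 2 ≤ trk μ k (2 * a + 1) * trk μ k (2 * a + 5)) ∧
  (∃ c : ℝ, 0 < c ∧ ∀ n, c ^ (n + 1) ≤ trk μ k n)

/-- REAL SEQUENCES. (`b r` will be the logarithm of the trace of the power `2 * r`.) -/
def S_SEQ : Prop := ∀ (b : ℕ → ℝ) (C I : ℝ) (r R : ℕ),
  (∀ i j, 1 ≤ i → 1 ≤ j → b (i + j) ≤ b i + b j) →
  (∀ i, 1 ≤ i → 2 * b (i + 1) ≤ b i + b (i + 2)) →
  (∀ i, 1 ≤ i → -(C * i) ≤ b i) → 1 ≤ r → 2 * r ≤ R → I ≤ b r + b (R - r) - b R →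
  ∀ t, 2 * r ≤ t → I / (4 * r) ≤ b r / r - b t / t

/-- RING PATH INTEGRAL. -/
def S_RING : Prop := ∀ (Y : Type) [TopologicalSpace Y] [CompactSpace Y]
  [SecondCountableTopology Y] [MeasurableSpace Y] [BorelSpace Y] (μ : Measure Y)
  [IsProbabilityMeasure μ] (k : Y → Y → ℝ), Continuous (fun p : Y × Y => k p.1 p.2) →
  (∀ n : ℕ, ∫ V : ZMod (n + 1) → Y, ∏ τ, k (V τ) (V (τ + 1)) ∂(Measure.pi fun _ => μ) =
    trk μ k n) ∧
  (∀ (n s : ℕ), s ≤ n → ∀ F : Y → Y → ℝ, Continuous (fun p : Y × Y => F p.1 p.2) →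
    ∫ V : ZMod (n + 2) → Y, F (V 0) (V ((s + 1 : ℕ) : ZMod (n + 2))) *
      ∏ τ, k (V τ) (V (τ + 1)) ∂(Measure.pi fun _ => μ) =
    ∫ u, ∫ v, F u v * (kit μ k s u v * kit μ k (n - s) v u) ∂μ ∂μ)

/-! ### Part 3: lattice gauge theory on the torus `(ℤ/l)^D × ℤ/t` -/

section tor

variable {G : Type*} [Group G]

/-- the plaquette variable on a group `A` of sites with the unit vectors `e` -/
def pq {A : Type*} [AddCommGroup A] {d : ℕ} (e : Fin d → A) (U : A × Fin d → G) (x : A)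
    (i j : Fin d) : G :=
  U (x, i) * U (x + e i, j) * (U (x + e j, i))⁻¹ * (U (x, j))⁻¹

/-- the action -/
def ac {A : Type*} [AddCommGroup A] [Fintype A] {d : ℕ} (we : G → ℝ) (e : Fin d → A)
    (U : A × Fin d → G) : ℝ :=
  ∑ x, ∑ i, ∑ j, if i < j then we (pq e U x i j) else 0

/-- the sites of the torus `(ℤ/l)^D × ℤ/t` -/
abbrev St (D l t : ℕ) := (Fin D → ZMod l) × ZMod t

/-- the unit vectors -/
def ev (D l t : ℕ) : Fin (D + 1) → St D l t :=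
  Fin.lastCases (0, 1) fun i => (Pi.single i 1, 0)

/-- the configurations of one time slice -/
abbrev Sl (D l : ℕ) (G : Type*) := (Fin D → ZMod l) × Fin D → G

/-- the spatial links at the time `τ` -/
def slice {D l t : ℕ} (U : St D l t × Fin (D + 1) → G) (τ : ZMod t) : Sl D l G :=
  fun p => U ((p.1, τ), p.2.castSucc)

/-- the temporal plaquettes between two time slices; `W` are the temporal links -/
def tmp {D l : ℕ} [NeZero l] (we : G → ℝ) (u : Sl D l G) (W : (Fin D → ZMod l) → G)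
    (v : Sl D l G) : ℝ :=
  ∑ x, ∑ i, we (u (x, i) * W (x + Pi.single i 1) * (v (x, i))⁻¹ * (W x)⁻¹)

/-- the transfer matrix -/
def ker {D l : ℕ} [NeZero l] [MeasurableSpace G] (μ : Measure G) (we : G → ℝ) (β : ℝ)
    (u v : Sl D l G) : ℝ :=
  ∫ W : (Fin D → ZMod l) → G, Real.exp (-(β * (1 / 2 * ac we (fun i => Pi.single i 1) u +
    1 / 2 * ac we (fun i => Pi.single i 1) v + tmp we u W v))) ∂(Measure.pi fun _ => μ)

/-- the partition function of the torus `(ℤ/l)^D × ℤ/t` -/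
def prt {D l t : ℕ} [NeZero l] [NeZero t] [MeasurableSpace G] (μ : Measure G) (we : G → ℝ)
    (β : ℝ) : ℝ :=
  ∫ U : St D l t × Fin (D + 1) → G, Real.exp (-(β * ac we (ev D l t) U)) ∂(Measure.pi fun _ => μ)

end tor

/-- THE TRANSFER MATRIX IS A GOOD KERNEL. -/
def S_KER : Prop := ∀ (G : Type) [Group G] [TopologicalSpace G] [IsTopologicalGroup G]
  [CompactSpace G] [SecondCountableTopology G] [MeasurableSpace G] [BorelSpace G]
  (μ : Measure G) [IsProbabilityMeasure μ] [μ.IsInvInvariant] (we : G → ℝ), Continuous we →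
  (∀ g, we g⁻¹ = we g) → (∀ g h, we (h * g * h⁻¹) = we g) → ∀ (D l : ℕ) [NeZero l] (β : ℝ),
  Continuous (fun p : Sl D l G × Sl D l G => ker μ we β p.1 p.2) ∧
  (∀ u v : Sl D l G, 0 < ker μ we β u v) ∧ ∀ u v : Sl D l G, ker μ we β u v = ker μ we β v u

/-- DECOMPOSITION INTO TIME SLICES. -/
def S_SLICE : Prop := ∀ (G : Type) [Group G] [TopologicalSpace G] [IsTopologicalGroup G]
  [CompactSpace G] [SecondCountableTopology G] [MeasurableSpace G] [BorelSpace G]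
  (μ : Measure G) [IsProbabilityMeasure μ] (we : G → ℝ), Continuous we →
  ∀ (D l t : ℕ) [NeZero l] [NeZero t] (β : ℝ) (Φ : (ZMod t → Sl D l G) → ℝ), Continuous Φ →
  ∫ U : St D l t × Fin (D + 1) → G, Φ (slice U) * Real.exp (-(β * ac we (ev D l t) U))
    ∂(Measure.pi fun _ => μ) =
  ∫ V : ZMod t → Sl D l G, Φ V * ∏ τ, ker μ we β (V τ) (V (τ + 1))
    ∂(Measure.pi fun _ => Measure.pi fun _ => μ)

end

end Pool.Agent.N899.SB
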