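import Mathlib
import Pool.Agent.N899.SB.Stm

/-!
# Chain rule for the entropy of a random subset
-/

open MeasureTheory Pool.Agent.N899.SB

namespace Pool.Agent.N899.SB.Chain

noncomputable section

/-! ### the real inequality -/

lemma hasDerivAt_ce (p r : ℝ) (h0 : 0 < r) (h1 : r < 1) :
    HasDerivAt (fun r => -(p * Real.log r + (1 - p) * Real.log (1 - r)) - 2 * (p - r) ^ 2)
      ((r - p) * (1 / (r * (1 - r)) - 4)) r := by
  have d1 : HasDerivAt (fun r : ℝ => Real.log r) r⁻¹ r := Real.hasDerivAt_log h0.ne'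
  have d2 : HasDerivAt (fun r : ℝ => 1 - r) (-1) r := by
    simpa using (hasDerivAt_id r).const_sub 1
  have d3 : HasDerivAt (fun r : ℝ => Real.log (1 - r)) (-1 / (1 - r)) r :=
    d2.log (by linarith)
  have d4 : HasDerivAt (fun r : ℝ => p - r) (-1) r := by
    simpa using (hasDerivAt_id r).const_sub p
  have d5 := ((d1.const_mul p).add (d3.const_mul (1 - p))).neg.sub ((d4.pow 2).const_mul 2)
  have e : (r - p) * (1 / (r * (1 - r)) - 4) =
      -(p * r⁻¹ + (1 - p) * (-1 / (1 - r))) - 2 * ((2 : ℕ) * (p - r) ^ (2 - 1) * -1) := by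
    have : 1 - r ≠ 0 := by linarith
    have : r ≠ 0 := h0.ne'
    field_simp
    ring
  rw [e]
  exact d5

lemma pin {p r : ℝ} (hp : 1 / 4 ≤ p) (hp' : p ≤ 3 / 4) (hr : 1 / 4 ≤ r) (hr' : r ≤ 3 / 4) :
    h2 p + 2 * (p - r) ^ 2 ≤ -(p * Real.log r + (1 - p) * Real.log (1 - r)) := by
  set f : ℝ → ℝ := fun r => -(p * Real.log r + (1 - p) * Real.log (1 - r)) - 2 * (p - r) ^ 2
    with hf
  have hd : ∀ x, 1 / 4 ≤ x → x ≤ 3 / 4 → HasDerivAt f ((x - p) * (1 / (x * (1 - x)) - 4)) x :=
    fun x h1 h2 => hasDerivAt_ce p x (by linarith) (by linarith)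
  have hpos : ∀ x : ℝ, 1 / 4 ≤ x → x ≤ 3 / 4 → 0 ≤ 1 / (x * (1 - x)) - 4 := by
    intro x h1 h2
    have h3 : 0 < x * (1 - x) := mul_pos (by linarith) (by linarith)
    rw [sub_nonneg, le_div_iff₀ h3]
    nlinarith [sq_nonneg (x - 1 / 2)]
  have hfp : f p = h2 p := by
    simp [hf, h2]
  have key : f p ≤ f r := by
    rcases le_total p r with hpr | hpr
    · have hm : MonotoneOn f (Set.Icc p (3 / 4)) := by
        apply monotoneOn_of_deriv_nonneg (convex_Icc _ _)
        · intro x hx
          exact (hd x (by linarith [hx.1]) hx.2).continuousAt.continuousWithinAt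
        · intro x hx
          rw [interior_Icc] at hx
          exact (hd x (by linarith [hx.1]) hx.2.le).differentiableAt.differentiableWithinAt
        · intro x hx
          rw [interior_Icc] at hx
          rw [(hd x (by linarith [hx.1]) hx.2.le).deriv]
          exact mul_nonneg (by linarith [hx.1]) (hpos x (by linarith [hx.1]) hx.2.le)
      exact hm ⟨le_rfl, hp'⟩ ⟨hpr, hr'⟩ hpr
    · have hm : AntitoneOn f (Set.Icc (1 / 4) p) := by
        apply antitoneOn_of_deriv_nonpos (convex_Icc _ _)
        · intro x hx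
          exact (hd x hx.1 (by linarith [hx.2])).continuousAt.continuousWithinAt
        · intro x hx
          rw [interior_Icc] at hx
          exact (hd x hx.1.le (by linarith [hx.2])).differentiableAt.differentiableWithinAt
        · intro x hx
          rw [interior_Icc] at hx
          rw [(hd x hx.1.le (by linarith [hx.2])).deriv]
          exact mul_nonpos_of_nonpos_of_nonneg (by linarith [hx.2])
            (hpos x hx.1.le (by linarith [hx.2]))
      exact hm ⟨hr, hpr⟩ ⟨hp, le_rfl⟩ hpr
  rw [hfp] at key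
  simp only [hf] at key
  linarith

/-! ### weights -/

section wts

variable {ι : Type*} [DecidableEq ι]

lemma wt_lower (s : Finset ι) (y : ι → ℝ) (hy : ∀ i, 1 / 4 ≤ y i ∧ y i ≤ 3 / 4) (T : Finset ι) :
    (1 / 4 : ℝ) ^ T.card * (1 / 4) ^ (s \ T).card ≤ wt s y T := by
  unfold wt
  have h1 : (1 / 4 : ℝ) ^ T.card ≤ ∏ i ∈ T, y i := by
    rw [← Finset.prod_const]
    exact Finset.prod_le_prod (fun _ _ => by norm_num) fun i _ => (hy i).1
  have h2 : (1 / 4 : ℝ) ^ (s \ T).card ≤ ∏ i ∈ s \ T, (1 - y i) := by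
    rw [← Finset.prod_const]
    exact Finset.prod_le_prod (fun _ _ => by norm_num) fun i _ => by linarith [(hy i).2]
  exact mul_le_mul h1 h2 (by positivity) (le_trans (by positivity) h1)

lemma wt_pos (s : Finset ι) (y : ι → ℝ) (hy : ∀ i, 1 / 4 ≤ y i ∧ y i ≤ 3 / 4) (T : Finset ι) :
    0 < wt s y T := lt_of_lt_of_le (by positivity) (wt_lower s y hy T)

lemma wt_sum (s : Finset ι) (y : ι → ℝ) : ∑ T ∈ s.powerset, wt s y T = 1 := by
  have h := Finset.prod_add y (fun i => 1 - y i) s
  simp only [add_sub_cancel, Finset.prod_const_one] at h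
  exact h.symm

lemma wt_continuous (s : Finset ι) (T : Finset ι) : Continuous fun y : ι → ℝ => wt s y T := by
  unfold wt
  exact (continuous_finsetProd _ fun i _ => continuous_apply i).mul
    (continuous_finsetProd _ fun i _ => continuous_const.sub (continuous_apply i))

lemma wt_insert_left {s : Finset ι} {a : ι} (ha : a ∉ s) (y : ι → ℝ) {T : Finset ι} (hT : T ⊆ s) :
    wt (insert a s) y T = wt s y T * (1 - y a) := by
  have haT : a ∉ T := fun h => ha (hT h)
  unfold wt
  rw [Finset.insert_sdiff_of_notMem _ haT, Finset.prod_insert (by simp [ha])]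
  ring

lemma wt_insert_right {s : Finset ι} {a : ι} (ha : a ∉ s) (y : ι → ℝ) {T : Finset ι}
    (hT : T ⊆ s) : wt (insert a s) y (insert a T) = wt s y T * y a := by
  have haT : a ∉ T := fun h => ha (hT h)
  have e : (insert a s) \ (insert a T) = s \ T := by
    ext i
    simp only [Finset.mem_sdiff, Finset.mem_insert]
    constructor
    · rintro ⟨h1, h2⟩
      push Not at h2
      exact ⟨h1.resolve_left h2.1, h2.2⟩
    · rintro ⟨h1, h2⟩
      refine ⟨Or.inr h1, ?_⟩
      rintro (h | h)
      · exact ha (h ▸ h1)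
      · exact h2 h
  unfold wt
  rw [e, Finset.prod_insert haT]
  ring

lemma wt_congr {s : Finset ι} {T : Finset ι} (hT : T ⊆ s) {y z : ι → ℝ}
    (h : ∀ i ∈ s, y i = z i) : wt s y T = wt s z T := by
  unfold wt
  have h1 : ∏ i ∈ T, y i = ∏ i ∈ T, z i := Finset.prod_congr rfl fun i hi => h i (hT hi)
  have h2 : ∏ i ∈ s \ T, (1 - y i) = ∏ i ∈ s \ T, (1 - z i) :=
    Finset.prod_congr rfl fun i hi => by rw [h i (Finset.mem_sdiff.mp hi).1]
  rw [h1, h2]

end wts

/-! ### expectations -/

section ex

variable {X : Type*} [TopologicalSpace X] {E : (X → ℝ) → ℝ} (hE : Exq E)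

include hE

lemma ex_const (c : ℝ) : E (fun _ => c) = c := by
  have h := hE.smul c (fun _ => 1)
  simp only [mul_one] at h
  rw [h, hE.one, mul_one]

lemma ex_neg (F : X → ℝ) : E (fun x => -F x) = -E F := by
  have h := hE.smul (-1) F
  simpa using h

lemma ex_sub {F H : X → ℝ} (hF : Continuous F) (hH : Continuous H) :
    E (fun x => F x - H x) = E F - E H := by
  have h := hE.add F (fun x => -H x) hF hH.neg
  rw [ex_neg hE] at h
  simp only [sub_eq_add_neg]
  exact h

lemma ex_sum {κ : Type*} (s : Finset κ) {F : κ → X → ℝ} (hF : ∀ i, Continuous (F i)) :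
    E (fun x => ∑ i ∈ s, F i x) = ∑ i ∈ s, E (F i) := by
  classical
  induction s using Finset.induction_on with
  | empty =>
    simp only [Finset.sum_empty]
    exact ex_const hE 0
  | insert i s hi ih =>
    simp only [Finset.sum_insert hi]
    rw [hE.add (F i) (fun x => ∑ i ∈ s, F i x) (hF i) (continuous_finsetSum _ fun i _ => hF i), ih]

lemma ex_mono {F H : X → ℝ} (hF : Continuous F) (hH : Continuous H) (h : ∀ x, F x ≤ H x) :
    E F ≤ E H := by
  have h1 := hE.nonneg (fun x => H x - F x) fun x => sub_nonneg.mpr (h x)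
  rw [ex_sub hE hH hF] at h1
  linarith

end ex

lemma h2_continuous : Continuous h2 := by
  unfold h2
  exact (Real.continuous_mul_log.add
    (Real.continuous_mul_log.comp (continuous_const.sub continuous_id))).neg

/-- the variance inequality -/
lemma var_le {κ : Type*} (s : Finset κ) (W r : κ → ℝ) (hW : ∀ i ∈ s, 0 ≤ W i)
    (h1 : ∑ i ∈ s, W i = 1) (x : ℝ) :
    (x - ∑ i ∈ s, W i * r i) ^ 2 ≤ ∑ i ∈ s, W i * (x - r i) ^ 2 := by
  set g := ∑ i ∈ s, W i * r i with hg
  have e : ∑ i ∈ s, W i * (x - r i) ^ 2 = (x - g) ^ 2 + ∑ i ∈ s, W i * (g - r i) ^ 2 := by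
    have e1 : ∀ i ∈ s, W i * (x - r i) ^ 2 = (x - g) ^ 2 * W i + (2 * (x - g) * (g * W i) -
        2 * (x - g) * (W i * r i)) + W i * (g - r i) ^ 2 := fun i _ => by ring
    rw [Finset.sum_congr rfl e1, Finset.sum_add_distrib, Finset.sum_add_distrib,
      Finset.sum_sub_distrib, ← Finset.mul_sum, ← Finset.mul_sum, ← Finset.mul_sum,
      ← Finset.mul_sum, h1, ← hg]
    ring
  rw [e]
  have : 0 ≤ ∑ i ∈ s, W i * (g - r i) ^ 2 :=
    Finset.sum_nonneg fun i hi => mul_nonneg (hW i hi) (sq_nonneg _)
  linarith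

/-- one point more -/
lemma step {X : Type*} [TopologicalSpace X] {E : (X → ℝ) → ℝ} (hE : Exq E) {ι : Type*}
    [DecidableEq ι] (s : Finset ι) (a : ι) (ha : a ∉ s) (w : ι → X → ℝ) (v : ℝ)
    (hc : ∀ i, Continuous (w i)) (hw : ∀ i x, 1 / 4 ≤ w i x ∧ w i x ≤ 3 / 4)
    (hv : ∀ γ : (ι → ℝ) → ℝ, Continuous γ →
      (∀ y z : ι → ℝ, (∀ j, j ≠ a → y j = z j) → γ y = γ z) →
      v ≤ E (fun x => (w a x - γ (fun j => w j x)) ^ 2)) :
    ent s (fun T => E (fun x => wt s (fun i => w i x) T)) + (E (fun x => h2 (w a x)) + 2 * v) ≤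
      ent (insert a s) (fun T => E (fun x => wt (insert a s) (fun i => w i x) T)) := by
  -- notation
  set W : Finset ι → X → ℝ := fun T x => wt s (fun i => w i x) T with hW
  have hWc : ∀ T, Continuous (W T) := fun T =>
    (wt_continuous s T).comp (continuous_pi fun i => hc i)
  have hWpos : ∀ T x, 0 < W T x := fun T x => wt_pos s _ (fun i => hw i x) T
  set A : Finset ι → ℝ := fun T => E (fun x => W T x * w a x) with hA
  set B : Finset ι → ℝ := fun T => E (fun x => W T x * (1 - w a x)) with hB
  set p : Finset ι → ℝ := fun T => E (W T) with hp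
  have cA : ∀ T, Continuous fun x => W T x * w a x := fun T => (hWc T).mul (hc a)
  have cB : ∀ T, Continuous fun x => W T x * (1 - w a x) := fun T =>
    (hWc T).mul (continuous_const.sub (hc a))
  have hAB : ∀ T, A T + B T = p T := by
    intro T
    simp only [hA, hB, hp]
    rw [← hE.add _ _ (cA T) (cB T)]
    congr 1
    funext x
    ring
  have hppos : ∀ T, 0 < p T := by
    intro T
    have h1 := ex_mono hE (F := fun _ => (1 / 4 : ℝ) ^ T.card * (1 / 4) ^ (s \ T).card)
      continuous_const (hWc T) fun x => wt_lower s _ (fun i => hw i x) T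
    rw [ex_const hE] at h1
    exact lt_of_lt_of_le (by positivity) h1
  have hA1 : ∀ T, p T / 4 ≤ A T := by
    intro T
    have h1 := ex_mono hE (F := fun x => 1 / 4 * W T x) (continuous_const.mul (hWc T)) (cA T)
      fun x => by nlinarith [hWpos T x, (hw a x).1]
    rw [hE.smul] at h1
    simp only [hA, hp]
    linarith
  have hA2 : ∀ T, A T ≤ 3 / 4 * p T := by
    intro T
    have h1 := ex_mono hE (H := fun x => 3 / 4 * W T x) (cA T) (continuous_const.mul (hWc T))
      fun x => by nlinarith [hWpos T x, (hw a x).2]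
    rw [hE.smul] at h1
    exact h1
  set r : Finset ι → ℝ := fun T => A T / p T with hr
  have hr1 : ∀ T, 1 / 4 ≤ r T := fun T => by
    simp only [hr]
    rw [le_div_iff₀ (hppos T)]
    linarith [hA1 T]
  have hr2 : ∀ T, r T ≤ 3 / 4 := fun T => by
    simp only [hr]
    rw [div_le_iff₀ (hppos T)]
    exact hA2 T
  have hAr : ∀ T, A T = p T * r T := fun T => by
    simp only [hr]
    field_simp [(hppos T).ne']
  have hBr : ∀ T, B T = p T * (1 - r T) := fun T => by
    have := hAB T
    have := hAr T
    linarith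
  -- the entropy of `insert a s`
  have e1 : ent (insert a s) (fun T => E (fun x => wt (insert a s) (fun i => w i x) T)) =
      ent s p + ∑ T ∈ s.powerset, -(A T * Real.log (r T) + B T * Real.log (1 - r T)) := by
    unfold ent
    rw [Finset.sum_powerset_insert ha, ← Finset.sum_add_distrib, Finset.sum_neg_distrib,
      ← neg_add, ← Finset.sum_add_distrib]
    congr 1
    refine Finset.sum_congr rfl fun T hT => ?_
    have hT' := Finset.mem_powerset.mp hT
    have g1 : E (fun x => wt (insert a s) (fun i => w i x) T) = B T := by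
      simp only [hB, hW]
      congr 1
      funext x
      exact wt_insert_left ha _ hT'
    have g2 : E (fun x => wt (insert a s) (fun i => w i x) (insert a T)) = A T := by
      simp only [hA, hW]
      congr 1
      funext x
      exact wt_insert_right ha _ hT'
    beta_reduce
    rw [g1, g2]
    have l1 : Real.log (A T) = Real.log (p T) + Real.log (r T) := by
      rw [hAr T, Real.log_mul (hppos T).ne' (by linarith [hr1 T])]
    have l2 : Real.log (B T) = Real.log (p T) + Real.log (1 - r T) := by
      rw [hBr T, Real.log_mul (hppos T).ne' (by linarith [hr2 T])]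
    rw [l1, l2, ← hAB T]
    ring
  -- the terms
  have cH : Continuous fun x => h2 (w a x) := h2_continuous.comp (hc a)
  have e2 : ∀ T, E (fun x => W T x * (h2 (w a x) + 2 * (w a x - r T) ^ 2)) ≤
      -(A T * Real.log (r T) + B T * Real.log (1 - r T)) := by
    intro T
    have g1 : -(A T * Real.log (r T) + B T * Real.log (1 - r T)) =
        E (fun x => (-Real.log (r T)) * (W T x * w a x) +
          (-Real.log (1 - r T)) * (W T x * (1 - w a x))) := by
      rw [hE.add (fun x => (-Real.log (r T)) * (W T x * w a x))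
        (fun x => (-Real.log (1 - r T)) * (W T x * (1 - w a x)))
        (continuous_const.mul (cA T)) (continuous_const.mul (cB T)), hE.smul, hE.smul]
      simp only [hA, hB]
      ring
    rw [g1]
    refine ex_mono hE ?_ ?_ fun x => ?_
    · exact (hWc T).mul (cH.add (continuous_const.mul (((hc a).sub continuous_const).pow 2)))
    · exact (continuous_const.mul (cA T)).add (continuous_const.mul (cB T))
    · have h := pin (hw a x).1 (hw a x).2 (hr1 T) (hr2 T)
      have h' := mul_le_mul_of_nonneg_left h (hWpos T x).le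
      refine h'.trans (le_of_eq ?_)
      ring
  have cT : ∀ T, Continuous fun x => W T x * (h2 (w a x) + 2 * (w a x - r T) ^ 2) := fun T =>
    (hWc T).mul (cH.add (continuous_const.mul (((hc a).sub continuous_const).pow 2)))
  set γ : (ι → ℝ) → ℝ := fun y => ∑ T ∈ s.powerset, wt s y T * r T with hγ
  have hγc : Continuous γ := continuous_finsetSum _ fun T _ =>
    (wt_continuous s T).mul continuous_const
  have hγi : ∀ y z : ι → ℝ, (∀ j, j ≠ a → y j = z j) → γ y = γ z := by
    intro y z h
    simp only [hγ]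
    refine Finset.sum_congr rfl fun T hT => ?_
    rw [wt_congr (Finset.mem_powerset.mp hT) fun i hi => h i fun hia => ha (hia ▸ hi)]
  have hv' := hv γ hγc hγi
  have cg : Continuous fun x => γ (fun j => w j x) := hγc.comp (continuous_pi fun i => hc i)
  have e3 : E (fun x => h2 (w a x)) + 2 * E (fun x => (w a x - γ (fun j => w j x)) ^ 2) ≤
      ∑ T ∈ s.powerset, E (fun x => W T x * (h2 (w a x) + 2 * (w a x - r T) ^ 2)) := by
    rw [← ex_sum hE s.powerset cT, ← hE.smul, ← hE.add (fun x => h2 (w a x))
      (fun x => 2 * (w a x - γ fun j => w j x) ^ 2) cH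
      (continuous_const.mul (((hc a).sub cg).pow 2))]
    refine ex_mono hE ?_ (continuous_finsetSum _ fun T _ => cT T) fun x => ?_
    · exact cH.add (continuous_const.mul (((hc a).sub cg).pow 2))
    · have s1 : ∑ T ∈ s.powerset, W T x = 1 := wt_sum s _
      have h3 := var_le s.powerset (fun T => W T x) r (fun T _ => (hWpos T x).le) s1 (w a x)
      have e4 : ∑ T ∈ s.powerset, W T x * (h2 (w a x) + 2 * (w a x - r T) ^ 2) =
          h2 (w a x) + 2 * ∑ T ∈ s.powerset, W T x * (w a x - r T) ^ 2 := by
        have e5 : ∀ T ∈ s.powerset, W T x * (h2 (w a x) + 2 * (w a x - r T) ^ 2) =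
            h2 (w a x) * W T x + 2 * (W T x * (w a x - r T) ^ 2) := fun T _ => by ring
        rw [Finset.sum_congr rfl e5, Finset.sum_add_distrib, ← Finset.mul_sum, ← Finset.mul_sum,
          s1, mul_one]
      rw [e4]
      have e6 : γ (fun j => w j x) = ∑ T ∈ s.powerset, W T x * r T := rfl
      rw [e6]
      linarith
  have e7 := Finset.sum_le_sum fun T (_ : T ∈ s.powerset) => e2 T
  rw [e1]
  linarith

theorem t_CHAIN : S_CHAIN := by
  intro X _ E hE ι _ s w v hc hw
  induction s using Finset.induction_on with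
  | empty =>
    intro _
    have h : (fun x : X => wt (∅ : Finset ι) (fun i => w i x) ∅) = fun _ => (1 : ℝ) := by
      funext x
      simp [wt]
    simp [ent, h, hE.one]
  | insert a s ha ih =>
    intro hv
    have h1 := ih fun i hi => hv i (Finset.mem_insert_of_mem hi)
    have h2 := step hE s a ha w (v a) hc hw fun γ hγ hi => hv a (Finset.mem_insert_self a s) γ hγ hi
    rw [Finset.sum_insert ha]
    linarith

end

end Pool.Agent.N899.SB.Chain
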