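import Mathlib
import Pool.Agent.N899.SB.Stm

/-!
# Entropic inequality for two kernels, cross entropy of two points
-/

set_option autoImplicit false

open MeasureTheory Pool.Agent.N899.SB

namespace Pool.Agent.N899.SB.Entropic

theorem t_CROSS : S_CROSS := by
  intro p q hp hp' hq hq'
  unfold h2
  have hp0 : 0 < p := by linarith
  have hq0 : 0 < q := by linarith
  have hp1 : 0 < 1 - p := by linarith
  have hq1 : 0 < 1 - q := by linarith
  have h1 : Real.log p - Real.log q ≤ p / q - 1 := by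
    rw [← Real.log_div hp0.ne' hq0.ne']
    exact Real.log_le_sub_one_of_pos (by positivity)
  have h2 : Real.log (1 - p) - Real.log (1 - q) ≤ (1 - p) / (1 - q) - 1 := by
    rw [← Real.log_div hp1.ne' hq1.ne']
    exact Real.log_le_sub_one_of_pos (by positivity)
  have h3 := mul_le_mul_of_nonneg_left h1 hp0.le
  have h4 := mul_le_mul_of_nonneg_left h2 hp1.le
  have h5 : p * (p / q - 1) + (1 - p) * ((1 - p) / (1 - q) - 1) = (p - q) ^ 2 / (q * (1 - q)) := by
    field_simp
    ring
  have h6 : (p - q) ^ 2 / (q * (1 - q)) ≤ 16 / 3 * (p - q) ^ 2 := by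
    rw [div_le_iff₀ (by positivity)]
    have h7 : 1 ≤ 16 / 3 * (q * (1 - q)) := by nlinarith
    nlinarith [mul_le_mul_of_nonneg_left h7 (sq_nonneg (p - q))]
  nlinarith

section alg

variable {ι : Type} [DecidableEq ι]

lemma wt_ins1 {s T : Finset ι} {a : ι} (ha : a ∉ s) (hT : T ⊆ s) (w : ι → ℝ) :
    wt (insert a s) w T = (1 - w a) * wt s w T := by
  unfold wt
  rw [Finset.insert_sdiff_of_notMem _ (fun h => ha (hT h)),
    Finset.prod_insert (fun h => ha (Finset.mem_sdiff.mp h).1)]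
  ring

lemma wt_ins2 {s T : Finset ι} {a : ι} (ha : a ∉ s) (hT : T ⊆ s) (w : ι → ℝ) :
    wt (insert a s) w (insert a T) = w a * wt s w T := by
  unfold wt
  have h : insert a s \ insert a T = s \ T := by
    ext x
    simp only [Finset.mem_sdiff, Finset.mem_insert, not_or]
    constructor
    · rintro ⟨h1 | h1, h2, h3⟩
      · exact absurd h1 h2
      · exact ⟨h1, h3⟩
    · rintro ⟨h1, h2⟩
      exact ⟨Or.inr h1, fun h => ha (h ▸ h1), h2⟩
  rw [h, Finset.prod_insert (fun h => ha (hT h))]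
  ring

lemma wt_sum (s : Finset ι) (w : ι → ℝ) : ∑ T ∈ s.powerset, wt s w T = 1 := by
  unfold wt
  rw [← Finset.prod_add]
  simp

lemma wt_lin (s : Finset ι) (w a b : ι → ℝ) :
    ∑ T ∈ s.powerset, wt s w T * (∑ i ∈ T, a i + ∑ i ∈ s \ T, b i) =
      ∑ i ∈ s, (w i * a i + (1 - w i) * b i) := by
  induction s using Finset.induction_on with
  | empty => simp
  | insert c s hc ih =>
    rw [Finset.sum_powerset_insert hc, Finset.sum_insert hc, ← ih]
    have h1 : ∑ T ∈ s.powerset, wt (insert c s) w T *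
        (∑ i ∈ T, a i + ∑ i ∈ insert c s \ T, b i) =
        (1 - w c) * ∑ T ∈ s.powerset, wt s w T * (∑ i ∈ T, a i + ∑ i ∈ s \ T, b i) +
          (1 - w c) * b c := by
      have h2 : (1 - w c) * b c = ∑ T ∈ s.powerset, wt s w T * ((1 - w c) * b c) := by
        rw [← Finset.sum_mul, wt_sum, one_mul]
      rw [h2, Finset.mul_sum, ← Finset.sum_add_distrib]
      refine Finset.sum_congr rfl fun T hT => ?_
      have hT := Finset.mem_powerset.mp hT
      rw [wt_ins1 hc hT, Finset.insert_sdiff_of_notMem _ (fun h => hc (hT h)),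
        Finset.sum_insert (fun h => hc (Finset.mem_sdiff.mp h).1)]
      ring
    have h2 : ∑ T ∈ s.powerset, wt (insert c s) w (insert c T) *
        (∑ i ∈ insert c T, a i + ∑ i ∈ insert c s \ insert c T, b i) =
        w c * ∑ T ∈ s.powerset, wt s w T * (∑ i ∈ T, a i + ∑ i ∈ s \ T, b i) +
          w c * a c := by
      have h2 : w c * a c = ∑ T ∈ s.powerset, wt s w T * (w c * a c) := by
        rw [← Finset.sum_mul, wt_sum, one_mul]
      rw [h2, Finset.mul_sum, ← Finset.sum_add_distrib]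
      refine Finset.sum_congr rfl fun T hT => ?_
      have hT := Finset.mem_powerset.mp hT
      have h : insert c s \ insert c T = s \ T := by
        ext x
        simp only [Finset.mem_sdiff, Finset.mem_insert, not_or]
        constructor
        · rintro ⟨h1 | h1, h2, h3⟩
          · exact absurd h1 h2
          · exact ⟨h1, h3⟩
        · rintro ⟨h1, h2⟩
          exact ⟨Or.inr h1, fun h => hc (h ▸ h1), h2⟩
      rw [wt_ins2 hc hT, h, Finset.sum_insert (fun h => hc (hT h))]
      ring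
    rw [h1, h2]
    ring

lemma wt_pos {s T : Finset ι} {w : ι → ℝ} (h : ∀ i, 0 < w i ∧ w i < 1) : 0 < wt s w T := by
  unfold wt
  refine mul_pos (Finset.prod_pos fun i _ => (h i).1) (Finset.prod_pos fun i _ => ?_)
  linarith [(h i).2]

lemma wt_log {s T : Finset ι} {w : ι → ℝ} (h : ∀ i, 0 < w i ∧ w i < 1) :
    Real.log (wt s w T) = ∑ i ∈ T, Real.log (w i) + ∑ i ∈ s \ T, Real.log (1 - w i) := by
  unfold wt
  rw [Real.log_mul (Finset.prod_pos fun i _ => (h i).1).ne'
    (Finset.prod_pos fun i _ => by linarith [(h i).2]).ne', Real.log_prod, Real.log_prod]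
  · intro i _
    have := (h i).2
    linarith
  · intro i _
    exact (h i).1.ne'

end alg

section ana

variable {Y : Type} [TopologicalSpace Y] [CompactSpace Y]
  [SecondCountableTopology Y] [MeasurableSpace Y] [BorelSpace Y] (μ : Measure Y)
  [IsProbabilityMeasure μ]

omit [SecondCountableTopology Y] in
lemma ci {f : Y → ℝ} (hf : Continuous f) : Integrable f μ :=
  hf.integrable_of_hasCompactSupport (HasCompactSupport.of_compactSpace f)

lemma ci2 {f : Y × Y → ℝ} (hf : Continuous f) : Integrable f (μ.prod μ) :=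
  hf.integrable_of_hasCompactSupport (HasCompactSupport.of_compactSpace f)

omit [SecondCountableTopology Y] in
lemma ipos {f : Y → ℝ} (hf : Continuous f) (h : ∀ u, 0 < f u) : 0 < ∫ u, f u ∂μ := by
  rw [integral_pos_iff_support_of_nonneg (fun u => (h u).le) (ci μ hf)]
  have : Function.support f = Set.univ := Set.eq_univ_of_forall fun u => (h u).ne'
  rw [this]
  simp

lemma ipos2 {f : Y × Y → ℝ} (hf : Continuous f) (h : ∀ u, 0 < f u) :
    0 < ∫ u, f u ∂(μ.prod μ) := by
  rw [integral_pos_iff_support_of_nonneg (fun u => (h u).le) (ci2 μ hf)]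
  have : Function.support f = Set.univ := Set.eq_univ_of_forall fun u => (h u).ne'
  rw [this]
  simp

lemma lin2 {X : Type} [MeasurableSpace X] {ν : Measure X} (α β : ℝ) {f g : X → ℝ}
    (hf : Integrable f ν) (hg : Integrable g ν) :
    ∫ p, (α * f p + β * g p) ∂ν = α * ∫ p, f p ∂ν + β * ∫ p, g p ∂ν := by
  rw [integral_add (hf.const_mul α) (hg.const_mul β), integral_const_mul, integral_const_mul]

lemma log_bd {x c : ℝ} (hx : 0 < x) (hc : 0 < c) : Real.log x ≤ x / c - 1 + Real.log c := by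
  have := Real.log_le_sub_one_of_pos (div_pos hx hc)
  rw [Real.log_div hx.ne' hc.ne'] at this
  linarith

theorem single (W g : Y → ℝ) (hW : Continuous W) (hW0 : ∀ u, 0 < W u) (hg : Continuous g)
    (hg0 : ∀ u, 0 < g u) (K : Y × Y → ℝ) (hK : Continuous K) (hK0 : ∀ p, 0 < K p)
    (hKg : ∀ p, K p ≤ g p.1 * g p.2) (Z : ℝ) (hZ : Z = ∫ p, K p ∂(μ.prod μ)) :
    (∫ p, W p.1 * Real.log (W p.2) * K p ∂(μ.prod μ)) / Z -
      ((∫ p, W p.1 * K p ∂(μ.prod μ)) / Z) * Real.log ((∫ p, W p.1 * K p ∂(μ.prod μ)) / Z) ≤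
      2 * ((∫ u, W u * g u ∂μ) / (∫ u, g u ∂μ) - (∫ p, W p.1 * K p ∂(μ.prod μ)) / Z) +
      ((∫ p, W p.1 * K p ∂(μ.prod μ)) / Z) * Real.log ((∫ u, g u ∂μ) ^ 2 / Z) := by
  have hZ0 : 0 < Z := by rw [hZ]; exact ipos2 μ hK hK0
  set Γ := ∫ u, g u ∂μ with hΓ
  have hΓ0 : 0 < Γ := ipos μ hg hg0
  set q := ∫ u, W u * g u ∂μ with hq
  have hq0 : 0 < q := ipos μ (hW.mul hg) fun u => mul_pos (hW0 u) (hg0 u)
  set P := (∫ p, W p.1 * K p ∂(μ.prod μ)) / Z with hP
  have cWK : Continuous fun p : Y × Y => W p.1 * K p := (hW.comp continuous_fst).mul hK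
  have hP0 : 0 < P := div_pos (ipos2 μ cWK fun p => mul_pos (hW0 _) (hK0 p)) hZ0
  have hPZ : ∫ p, W p.1 * K p ∂(μ.prod μ) = P * Z := by rw [hP]; field_simp
  set c := Γ ^ 2 / Z * (q / Γ) with hc
  have hc0 : 0 < c := by positivity
  have hlc : Continuous fun p : Y × Y => Real.log (W p.2) :=
    Continuous.log (hW.comp continuous_snd) fun p => (hW0 _).ne'
  have h1 : ∫ p, W p.1 * Real.log (W p.2) * K p ∂(μ.prod μ) ≤
      ∫ p, ((1 / c) * (W p.1 * W p.2 * K p) + (Real.log c - 1) * (W p.1 * K p)) ∂(μ.prod μ) := by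
    refine integral_mono (ci2 μ (((hW.comp continuous_fst).mul hlc).mul hK)) (ci2 μ ?_) ?_
    · exact (continuous_const.mul (((hW.comp continuous_fst).mul
        (hW.comp continuous_snd)).mul hK)).add (continuous_const.mul cWK)
    · intro p
      have h2 := log_bd (hW0 p.2) hc0
      have h3 : 0 < W p.1 * K p := mul_pos (hW0 _) (hK0 p)
      have h4 := mul_le_mul_of_nonneg_left h2 h3.le
      have h5 : W p.1 * K p * (W p.2 / c - 1 + Real.log c) =
          (1 / c) * (W p.1 * W p.2 * K p) + (Real.log c - 1) * (W p.1 * K p) := by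
        field_simp
        ring
      simp only
      rw [← h5]
      linarith
  have cWW : Continuous fun p : Y × Y => W p.1 * W p.2 * K p :=
    ((hW.comp continuous_fst).mul (hW.comp continuous_snd)).mul hK
  have h1' : ∫ p, ((1 / c) * (W p.1 * W p.2 * K p) + (Real.log c - 1) * (W p.1 * K p))
      ∂(μ.prod μ) = (1 / c) * (∫ p, W p.1 * W p.2 * K p ∂(μ.prod μ)) +
        (Real.log c - 1) * ∫ p, W p.1 * K p ∂(μ.prod μ) :=
    lin2 (1 / c) (Real.log c - 1) (ci2 μ cWW) (ci2 μ cWK)
  rw [h1', hPZ] at h1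
  have h2 : ∫ p, W p.1 * W p.2 * K p ∂(μ.prod μ) ≤ q * q := by
    have h3 : q * q = ∫ p : Y × Y, (W p.1 * g p.1) * (W p.2 * g p.2) ∂(μ.prod μ) := by
      rw [hq]
      exact (integral_prod_mul (fun u => W u * g u) (fun u => W u * g u)).symm
    rw [h3]
    refine integral_mono (ci2 μ (((hW.comp continuous_fst).mul (hW.comp continuous_snd)).mul hK))
      (ci2 μ (((hW.comp continuous_fst).mul (hg.comp continuous_fst)).mul
        ((hW.comp continuous_snd).mul (hg.comp continuous_snd)))) ?_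
    intro p
    have h4 := mul_le_mul_of_nonneg_left (hKg p) (mul_pos (hW0 p.1) (hW0 p.2)).le
    simp only
    linarith
  have h3 : (1 / c) * (∫ p, W p.1 * W p.2 * K p ∂(μ.prod μ)) ≤ (q / Γ) * Z := by
    calc _ ≤ (1 / c) * (q * q) := mul_le_mul_of_nonneg_left h2 (by positivity)
      _ = _ := by
        rw [hc]
        field_simp
  have h4 : (∫ p, W p.1 * Real.log (W p.2) * K p ∂(μ.prod μ)) / Z ≤
      q / Γ + (Real.log c - 1) * P := by
    rw [div_le_iff₀ hZ0]
    nlinarith
  have h5 : Real.log c = Real.log (Γ ^ 2 / Z) + Real.log (q / Γ) := by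
    rw [hc, Real.log_mul (by positivity) (by positivity)]
  have h6 := log_bd (div_pos hq0 hΓ0) hP0
  have h7 : P * Real.log (q / Γ) ≤ q / Γ - P + P * Real.log P := by
    have h8 := mul_le_mul_of_nonneg_left h6 hP0.le
    have h9 : P * (q / Γ / P - 1 + Real.log P) = q / Γ - P + P * Real.log P := by
      field_simp
    linarith
  rw [h5] at h4
  nlinarith

omit [SecondCountableTopology Y] in
lemma cs (a b : Y → ℝ) (ha : Continuous a) (hb : Continuous b) (ha0 : ∀ u, 0 < a u)
    (hb0 : ∀ u, 0 < b u) : (∫ u, Real.sqrt (a u * b u) ∂μ) ^ 2 ≤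
      (∫ u, a u ∂μ) * (∫ u, b u ∂μ) := by
  have h1 := ipos μ ha ha0
  have h2 := ipos μ hb hb0
  set A := Real.sqrt (∫ u, a u ∂μ) with hA
  set B := Real.sqrt (∫ u, b u ∂μ) with hB
  have hA0 : 0 < A := Real.sqrt_pos.mpr h1
  have hB0 : 0 < B := Real.sqrt_pos.mpr h2
  have hA2 : A ^ 2 = ∫ u, a u ∂μ := Real.sq_sqrt h1.le
  have hB2 : B ^ 2 = ∫ u, b u ∂μ := Real.sq_sqrt h2.le
  have cc : Continuous fun u => Real.sqrt (a u * b u) := Real.continuous_sqrt.comp (ha.mul hb)
  have h3 : ∫ u, Real.sqrt (a u * b u) ∂μ ≤ ∫ u, ((B / (2 * A)) * a u + (A / (2 * B)) * b u) ∂μ := by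
    refine integral_mono (ci μ cc) (ci μ ((continuous_const.mul ha).add (continuous_const.mul hb)))
      fun u => ?_
    simp only
    rw [Real.sqrt_mul (ha0 u).le]
    have e1 := Real.sq_sqrt (ha0 u).le
    have e2 := Real.sq_sqrt (hb0 u).le
    set x := Real.sqrt (a u)
    set y := Real.sqrt (b u)
    have e3 : B / (2 * A) * a u + A / (2 * B) * b u - x * y = (B * x - A * y) ^ 2 / (2 * A * B) := by
      rw [← e1, ← e2]
      field_simp
      ring
    have e4 : 0 ≤ (B * x - A * y) ^ 2 / (2 * A * B) := by positivity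
    linarith
  rw [lin2 _ _ (ci μ ha) (ci μ hb), ← hA2, ← hB2] at h3
  have h4 : B / (2 * A) * A ^ 2 + A / (2 * B) * B ^ 2 = A * B := by
    field_simp
    ring
  rw [h4] at h3
  have h5 : 0 ≤ ∫ u, Real.sqrt (a u * b u) ∂μ := integral_nonneg fun u => Real.sqrt_nonneg _
  rw [← hA2, ← hB2]
  calc _ ≤ (A * B) ^ 2 := pow_le_pow_left₀ h5 h3 2
    _ = _ := by ring

end ana

theorem t_ENTROPIC : S_ENTROPIC := by
  intro Y _ _ _ _ _ μ _ k1 k2 hk1 hk2 p1 p2 c1 c2 ι _ s w hw hw2 Z E hZ hE
  set K : Y × Y → ℝ := fun p => k1 p.1 p.2 * k2 p.2 p.1 with hK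
  have cK : Continuous K := hk1.mul (hk2.comp continuous_swap)
  have pK : ∀ p, 0 < K p := fun p => mul_pos (p1 _ _) (p2 _ _)
  have hZ' : Z = ∫ p, K p ∂(μ.prod μ) := by
    rw [hZ, integral_prod _ (ci2 μ cK)]
  have hZ0 : 0 < Z := by rw [hZ']; exact ipos2 μ cK pK
  set g : Y → ℝ := fun u => Real.sqrt (k1 u u * k2 u u) with hg
  have ck1 : Continuous fun u => k1 u u := hk1.comp (continuous_id.prodMk continuous_id)
  have ck2 : Continuous fun u => k2 u u := hk2.comp (continuous_id.prodMk continuous_id)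
  have cg : Continuous g := Real.continuous_sqrt.comp (ck1.mul ck2)
  have pg : ∀ u, 0 < g u := fun u => Real.sqrt_pos.mpr (mul_pos (p1 _ _) (p2 _ _))
  have hKg : ∀ p, K p ≤ g p.1 * g p.2 := by
    rintro ⟨u, v⟩
    simp only [hK, hg]
    rw [← Real.sqrt_mul (mul_pos (p1 _ _) (p2 _ _)).le]
    refine Real.le_sqrt_of_sq_le ?_
    rw [mul_pow]
    calc _ ≤ (k1 u u * k1 v v) * (k2 v v * k2 u u) :=
          mul_le_mul (c1 u v) (c2 v u) (sq_nonneg _) (mul_pos (p1 _ _) (p1 _ _)).le
      _ = _ := by ring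
  have hE' : ∀ F : Y → Y → ℝ, Continuous (fun p : Y × Y => F p.1 p.2) →
      E F = (∫ p, F p.1 p.2 * K p ∂(μ.prod μ)) / Z := by
    intro F hF
    rw [hE]
    congr 1
    exact (integral_prod (fun p : Y × Y => F p.1 p.2 * K p) (ci2 μ (hF.mul cK))).symm
  have hw01 : ∀ u i, 0 < w i u ∧ w i u < 1 := fun u i =>
    ⟨by linarith [(hw2 i u).1], by linarith [(hw2 i u).2]⟩
  -- the functions W_T
  have cW : ∀ T, Continuous fun u => wt s (fun i => w i u) T := by
    intro T
    unfold wt
    exact (continuous_finsetProd _ fun i _ => hw i).mul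
      (continuous_finsetProd _ fun i _ => continuous_const.sub (hw i))
  have pW : ∀ T u, 0 < wt s (fun i => w i u) T := fun T u => wt_pos (hw01 u)
  set Γ := ∫ u, g u ∂μ with hΓ
  have hΓ0 : 0 < Γ := ipos μ cg pg
  have key : ∀ T, _ := fun T => single μ (fun u => wt s (fun i => w i u) T) g (cW T) (pW T) cg pg
    K cK pK hKg Z hZ'
  have hsum := Finset.sum_le_sum (s := s.powerset) fun T _ => key T
  have cW1 : ∀ T, Continuous fun p : Y × Y => wt s (fun i => w i p.1) T * K p :=
    fun T => ((cW T).comp continuous_fst).mul cK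
  have cWg : ∀ T, Continuous fun u : Y => wt s (fun i => w i u) T * g u :=
    fun T => (cW T).mul cg
  -- sums
  have s1 : ∑ T ∈ s.powerset, (∫ p, wt s (fun i => w i p.1) T * K p ∂(μ.prod μ)) / Z = 1 := by
    rw [← Finset.sum_div, ← integral_finsetSum _ fun T _ => ci2 μ (cW1 T)]
    have : ∀ p : Y × Y, ∑ T ∈ s.powerset, wt s (fun i => w i p.1) T * K p = K p := by
      intro p
      rw [← Finset.sum_mul, wt_sum, one_mul]
    simp only [this]
    rw [← hZ', div_self hZ0.ne']
  have s2 : ∑ T ∈ s.powerset, (∫ u, wt s (fun i => w i u) T * g u ∂μ) / Γ = 1 := by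
    rw [← Finset.sum_div, ← integral_finsetSum _ fun T _ => ci μ (cWg T)]
    have : ∀ u : Y, ∑ T ∈ s.powerset, wt s (fun i => w i u) T * g u = g u := by
      intro u
      rw [← Finset.sum_mul, wt_sum, one_mul]
    simp only [this]
    rw [← hΓ, div_self hΓ0.ne']
  have s3 : ∑ T ∈ s.powerset, (∫ p, wt s (fun i => w i p.1) T *
      Real.log (wt s (fun i => w i p.2) T) * K p ∂(μ.prod μ)) / Z =
      ∑ i ∈ s, E (fun u v => w i u * Real.log (w i v) + (1 - w i u) * Real.log (1 - w i v)) := by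
    have cl : ∀ i, Continuous fun p : Y × Y => (w i p.1 * Real.log (w i p.2) +
        (1 - w i p.1) * Real.log (1 - w i p.2)) := by
      intro i
      refine (((hw i).comp continuous_fst).mul
        (Continuous.log ((hw i).comp continuous_snd) fun p => (hw01 _ i).1.ne')).add
        ((continuous_const.sub ((hw i).comp continuous_fst)).mul
        (Continuous.log (continuous_const.sub ((hw i).comp continuous_snd)) fun p => ?_))
      have := (hw01 p.2 i).2
      intro h
      have h' : (1 : ℝ) - w i p.2 = 0 := h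
      linarith
    have h1 : ∀ i, E (fun u v => w i u * Real.log (w i v) +
        (1 - w i u) * Real.log (1 - w i v)) = (∫ p, (w i p.1 * Real.log (w i p.2) +
        (1 - w i p.1) * Real.log (1 - w i p.2)) * K p ∂(μ.prod μ)) / Z :=
      fun i => hE' _ (cl i)
    simp only [h1]
    have cl2 : ∀ i, Integrable (fun p : Y × Y => (w i p.1 * Real.log (w i p.2) +
        (1 - w i p.1) * Real.log (1 - w i p.2)) * K p) (μ.prod μ) :=
      fun i => ci2 μ ((cl i).mul cK)
    rw [← Finset.sum_div, ← Finset.sum_div, ← integral_finsetSum _ fun i _ => cl2 i,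
      ← integral_finsetSum]
    · congr 2
      funext p
      rw [← Finset.sum_mul, ← Finset.sum_mul]
      congr 1
      rw [← wt_lin s (fun i => w i p.1) (fun i => Real.log (w i p.2))
        (fun i => Real.log (1 - w i p.2))]
      refine Finset.sum_congr rfl fun T _ => ?_
      rw [wt_log (hw01 p.2)]
    · intro T _
      exact ci2 μ ((((cW T).comp continuous_fst).mul
        (Continuous.log ((cW T).comp continuous_snd) fun p => (pW T _).ne')).mul cK)
  have s4 : ∀ T, E (fun u _ => wt s (fun i => w i u) T) =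
      (∫ p, wt s (fun i => w i p.1) T * K p ∂(μ.prod μ)) / Z :=
    fun T => hE' _ ((cW T).comp continuous_fst)
  rw [Finset.sum_sub_distrib, Finset.sum_add_distrib, ← Finset.mul_sum, Finset.sum_sub_distrib,
    s1, s2, s3, ← Finset.sum_mul, s1] at hsum
  unfold ent
  simp only [s4]
  have hcs := cs μ (fun u => k1 u u) (fun u => k2 u u) ck1 ck2 (fun u => p1 _ _) (fun u => p2 _ _)
  have hlog : Real.log (Γ ^ 2 / Z) ≤
      Real.log ((∫ u, k1 u u ∂μ) * (∫ u, k2 u u ∂μ) / Z) := by
    refine Real.log_le_log (by positivity) ?_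
    exact div_le_div_of_nonneg_right hcs hZ0.le
  linarith

end Pool.Agent.N899.SB.Entropic
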