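import Mathlib
import Pool.Agent.N899.SB.Stm

/-!
# Iterates of a positive symmetric continuous kernel: `S_KIT`
-/

set_option autoImplicit false
set_option linter.unusedSectionVars false

open MeasureTheory Pool.Agent.N899.SB

namespace Pool.Agent.N899.SB.Kit

noncomputable section

section gen

variable {Y : Type} [TopologicalSpace Y] [CompactSpace Y] [SecondCountableTopology Y]
  [MeasurableSpace Y] [BorelSpace Y]

lemma bound_of_cont {X : Type} [TopologicalSpace X] [CompactSpace X] (f : X → ℝ)
    (hf : Continuous f) : ∃ C : ℝ, ∀ x, ‖f x‖ ≤ C := by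
  obtain ⟨C, hC⟩ := isCompact_univ.exists_bound_of_continuousOn hf.continuousOn
  exact ⟨C, fun x => hC x (Set.mem_univ x)⟩

lemma intble (μ : Measure Y) [IsFiniteMeasure μ] (f : Y → ℝ) (hf : Continuous f) :
    Integrable f μ := by
  obtain ⟨C, hC⟩ := bound_of_cont f hf
  exact Integrable.of_bound hf.aestronglyMeasurable C (Filter.Eventually.of_forall hC)

lemma cont_int (μ : Measure Y) [IsFiniteMeasure μ] {X : Type} [TopologicalSpace X] [CompactSpace X]
    [FirstCountableTopology X] (F : X → Y → ℝ) (hF : Continuous (Function.uncurry F)) :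
    Continuous fun x => ∫ y, F x y ∂μ := by
  obtain ⟨C, hC⟩ := bound_of_cont _ hF
  refine continuous_of_dominated (bound := fun _ => C) (fun x => ?_) (fun x => ?_)
    (integrable_const C) ?_
  · exact (hF.comp (Continuous.prodMk_right x)).aestronglyMeasurable
  · exact Filter.Eventually.of_forall fun y => hC (x, y)
  · exact Filter.Eventually.of_forall fun y => hF.comp (Continuous.prodMk_left y)

lemma swap (μ : Measure Y) [IsProbabilityMeasure μ] (F : Y → Y → ℝ)
    (hF : Continuous (Function.uncurry F)) :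
    ∫ x, ∫ y, F x y ∂μ ∂μ = ∫ y, ∫ x, F x y ∂μ ∂μ :=
  integral_integral_swap (intble (μ.prod μ) _ hF)

/-- Cauchy-Schwarz -/
lemma cs (μ : Measure Y) [IsFiniteMeasure μ] (F H : Y → ℝ) (hF : Continuous F)
    (hH : Continuous H) :
    (∫ y, F y * H y ∂μ) ^ 2 ≤ (∫ y, F y ^ 2 ∂μ) * ∫ y, H y ^ 2 ∂μ := by
  have h1 : ∀ x : ℝ, 0 ≤ (∫ y, F y ^ 2 ∂μ) * (x * x) + (-(2 * ∫ y, F y * H y ∂μ)) * x +
      ∫ y, H y ^ 2 ∂μ := by
    intro x
    have h2 : 0 ≤ ∫ y, (x * F y - H y) ^ 2 ∂μ := integral_nonneg fun y => by positivity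
    have h3 : ∫ y, (x * F y - H y) ^ 2 ∂μ = ∫ y, ((x * x) * F y ^ 2 + (-(2 * x)) * (F y * H y) +
        H y ^ 2) ∂μ := by
      congr 1
      funext y
      ring
    rw [h3, integral_add, integral_add, integral_const_mul, integral_const_mul] at h2
    · linarith
    · exact intble μ _ (by fun_prop)
    · exact intble μ _ (by fun_prop)
    · exact intble μ _ (by fun_prop)
    · exact intble μ _ (by fun_prop)
  have h4 := discrim_le_zero h1
  unfold discrim at h4
  nlinarith

end gen

section main

variable {Y : Type} [TopologicalSpace Y] [CompactSpace Y] [SecondCountableTopology Y]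
  [MeasurableSpace Y] [BorelSpace Y] (μ : Measure Y) [IsProbabilityMeasure μ] {k : Y → Y → ℝ}
  (hk : Continuous (fun p : Y × Y => k p.1 p.2))

include hk

lemma kit_cont : ∀ n, Continuous (fun p : Y × Y => kit μ k n p.1 p.2) := by
  intro n
  induction n with
  | zero => exact hk
  | succ n ih =>
    simp only [kit]
    refine cont_int μ (fun (p : Y × Y) w => k p.1 w * kit μ k n w p.2) ?_
    have h1 : Continuous fun q : (Y × Y) × Y => k q.1.1 q.2 :=
      hk.comp (by fun_prop : Continuous fun q : (Y × Y) × Y => (q.1.1, q.2))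
    have h2 : Continuous fun q : (Y × Y) × Y => kit μ k n q.2 q.1.2 :=
      ih.comp (by fun_prop : Continuous fun q : (Y × Y) × Y => (q.2, q.1.2))
    exact h1.mul h2

lemma kit_cont' (n : ℕ) {X : Type} [TopologicalSpace X] {f g : X → Y} (hf : Continuous f)
    (hg : Continuous g) : Continuous fun x => kit μ k n (f x) (g x) :=
  (kit_cont μ hk n).comp (hf.prodMk hg)

lemma kit_pos (hp : ∀ u v, 0 < k u v) : ∀ n u v, 0 < kit μ k n u v := by
  intro n
  induction n with
  | zero => exact hp
  | succ n ih =>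
    intro u v
    simp only [kit]
    have hpos : ∀ w, 0 < k u w * kit μ k n w v := fun w => mul_pos (hp _ _) (ih _ _)
    rw [integral_pos_iff_support_of_nonneg (fun w => (hpos w).le)]
    · have : Function.support (fun w => k u w * kit μ k n w v) = Set.univ := by
        ext w
        simp [(hp u w).ne', (ih w v).ne']
      rw [this, measure_univ]
      exact one_pos
    · exact intble μ _ ((kit_cont' μ hk 0 continuous_const continuous_id).mul
        (kit_cont' μ hk n continuous_id continuous_const))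

lemma kit_comp : ∀ a b u v, ∫ w, kit μ k a u w * kit μ k b w v ∂μ = kit μ k (a + b + 1) u v := by
  intro a
  induction a with
  | zero =>
    intro b u v
    rw [Nat.zero_add]
    rfl
  | succ a ih =>
    intro b u v
    have e : a + 1 + b + 1 = (a + b + 1) + 1 := by omega
    rw [e]
    show _ = ∫ x, k u x * kit μ k (a + b + 1) x v ∂μ
    simp only [← ih]
    have e1 : ∀ w, kit μ k (a + 1) u w * kit μ k b w v =
        ∫ x, k u x * kit μ k a x w * kit μ k b w v ∂μ := by
      intro w
      rw [integral_mul_const]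
      rfl
    have e2 : ∀ x, k u x * ∫ w, kit μ k a x w * kit μ k b w v ∂μ =
        ∫ w, k u x * kit μ k a x w * kit μ k b w v ∂μ := by
      intro x
      rw [← integral_const_mul]
      congr 1
      funext w
      ring
    simp only [e1, e2]
    refine swap μ (fun w x => k u x * kit μ k a x w * kit μ k b w v) ?_
    exact ((kit_cont' μ hk 0 continuous_const continuous_snd).mul
      (kit_cont' μ hk a continuous_snd continuous_fst)).mul
      (kit_cont' μ hk b continuous_fst continuous_const)

lemma kit_symm (hs : ∀ u v, k u v = k v u) : ∀ n u v, kit μ k n u v = kit μ k n v u := by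
  intro n
  induction n with
  | zero => exact hs
  | succ n ih =>
    intro u v
    have h := kit_comp μ hk n 0 v u
    rw [Nat.add_zero] at h
    rw [← h]
    show ∫ w, k u w * kit μ k n w v ∂μ = ∫ w, kit μ k n v w * k w u ∂μ
    congr 1
    funext w
    rw [ih w v, hs u w]
    ring

lemma kit_cs (hs : ∀ u v, k u v = k v u) (a : ℕ) (u v : Y) :
    kit μ k (2 * a + 1) u v ^ 2 ≤ kit μ k (2 * a + 1) u u * kit μ k (2 * a + 1) v v := by
  have h1 : ∀ u v, kit μ k (2 * a + 1) u v = ∫ w, kit μ k a u w * kit μ k a v w ∂μ := by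
    intro u v
    have e : 2 * a + 1 = a + a + 1 := by omega
    rw [e, ← kit_comp μ hk a a u v]
    congr 1
    funext w
    rw [kit_symm μ hk hs a w v]
  rw [h1 u v, h1 u u, h1 v v]
  have h2 := cs μ (fun w => kit μ k a u w) (fun w => kit μ k a v w)
    (kit_cont' μ hk a continuous_const continuous_id)
    (kit_cont' μ hk a continuous_const continuous_id)
  simpa only [pow_two] using h2

lemma trk_eq (hs : ∀ u v, k u v = k v u) (a b : ℕ) :
    trk μ k (a + b + 1) = ∫ u, ∫ v, kit μ k a u v * kit μ k b u v ∂μ ∂μ := by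
  unfold trk
  congr 1
  funext u
  rw [← kit_comp μ hk a b u u]
  congr 1
  funext w
  rw [kit_symm μ hk hs b w u]

lemma trk_mul (hp : ∀ u v, 0 < k u v) (hs : ∀ u v, k u v = k v u) (a b : ℕ) :
    trk μ k (2 * a + 1 + (2 * b + 1) + 1) ≤ trk μ k (2 * a + 1) * trk μ k (2 * b + 1) := by
  rw [trk_eq μ hk hs]
  set A : Y → ℝ := fun u => Real.sqrt (kit μ k (2 * a + 1) u u) with hA
  set B : Y → ℝ := fun u => Real.sqrt (kit μ k (2 * b + 1) u u) with hB
  have hAc : Continuous A := (kit_cont' μ hk _ continuous_id continuous_id).sqrt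
  have hBc : Continuous B := (kit_cont' μ hk _ continuous_id continuous_id).sqrt
  have hle : ∀ a u v, kit μ k (2 * a + 1) u v ≤
      Real.sqrt (kit μ k (2 * a + 1) u u) * Real.sqrt (kit μ k (2 * a + 1) v v) := by
    intro a u v
    rw [← Real.sqrt_mul (kit_pos μ hk hp _ u u).le]
    exact Real.le_sqrt_of_sq_le (kit_cs μ hk hs a u v)
  have h1 : ∫ u, ∫ v, kit μ k (2 * a + 1) u v * kit μ k (2 * b + 1) u v ∂μ ∂μ ≤
      ∫ u, ∫ v, (A u * B u) * (A v * B v) ∂μ ∂μ := by
    refine integral_mono ?_ ?_ fun u => ?_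
    · exact intble μ _ (cont_int μ _ ((kit_cont' μ hk _ continuous_fst continuous_snd).mul
        (kit_cont' μ hk _ continuous_fst continuous_snd)))
    · refine intble μ _ (cont_int μ _ ?_)
      show Continuous fun p : Y × Y => (A p.1 * B p.1) * (A p.2 * B p.2)
      fun_prop
    · refine integral_mono ?_ ?_ fun v => ?_
      · exact intble μ _ ((kit_cont' μ hk _ continuous_const continuous_id).mul
          (kit_cont' μ hk _ continuous_const continuous_id))
      · exact intble μ _ (by fun_prop)
      · show kit μ k (2 * a + 1) u v * kit μ k (2 * b + 1) u v ≤ (A u * B u) * (A v * B v)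
        calc _ ≤ (A u * A v) * (B u * B v) := mul_le_mul (hle a u v) (hle b u v)
              (kit_pos μ hk hp _ _ _).le (by positivity)
          _ = _ := by ring
  refine h1.trans ?_
  have h2 : ∫ u, ∫ v, (A u * B u) * (A v * B v) ∂μ ∂μ = (∫ u, A u * B u ∂μ) ^ 2 := by
    simp only [integral_const_mul, integral_mul_const]
    ring
  rw [h2]
  refine (cs μ A B hAc hBc).trans (le_of_eq ?_)
  unfold trk
  congr 1
  · congr 1
    funext u
    exact Real.sq_sqrt (kit_pos μ hk hp _ u u).le
  · congr 1
    funext u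
    exact Real.sq_sqrt (kit_pos μ hk hp _ u u).le

lemma trk_sq (hs : ∀ u v, k u v = k v u) (a : ℕ) :
    trk μ k (2 * a + 3) ^ 2 ≤ trk μ k (2 * a + 1) * trk μ k (2 * a + 5) := by
  have e1 : 2 * a + 3 = a + (a + 2) + 1 := by omega
  have e2 : 2 * a + 1 = a + a + 1 := by omega
  have e3 : 2 * a + 5 = (a + 2) + (a + 2) + 1 := by omega
  rw [e1, e2, e3, trk_eq μ hk hs, trk_eq μ hk hs, trk_eq μ hk hs]
  have hc : ∀ n, Continuous fun p : Y × Y => kit μ k n p.1 p.2 := kit_cont μ hk
  have h := cs (μ.prod μ) (fun p : Y × Y => kit μ k a p.1 p.2)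
    (fun p : Y × Y => kit μ k (a + 2) p.1 p.2) (hc a) (hc (a + 2))
  have i1 : Integrable (fun p : Y × Y => kit μ k a p.1 p.2 * kit μ k (a + 2) p.1 p.2)
      (μ.prod μ) := intble _ _ ((hc a).mul (hc (a + 2)))
  have i2 : ∀ b, Integrable (fun p : Y × Y => kit μ k b p.1 p.2 ^ 2) (μ.prod μ) :=
    fun b => intble _ _ ((hc b).pow 2)
  rw [integral_prod _ i1, integral_prod _ (i2 a), integral_prod _ (i2 (a + 2))] at h
  simpa only [pow_two] using h

lemma trk_lower (hp : ∀ u v, 0 < k u v) : ∃ c : ℝ, 0 < c ∧ ∀ n, c ^ (n + 1) ≤ trk μ k n := by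
  have hne : Nonempty Y := by
    by_contra h
    rw [not_nonempty_iff] at h
    have h1 : μ Set.univ = 1 := measure_univ
    rw [Set.univ_eq_empty_iff.2 h, measure_empty] at h1
    exact zero_ne_one h1
  obtain ⟨p0, -, hp0⟩ := (isCompact_univ (X := Y × Y)).exists_isMinOn Set.univ_nonempty
    hk.continuousOn
  set c := k p0.1 p0.2 with hcdef
  have hc : 0 < c := hp _ _
  have hmin : ∀ u v, c ≤ k u v := fun u v => hp0 (Set.mem_univ (u, v))
  have hkit : ∀ n u v, c ^ (n + 1) ≤ kit μ k n u v := by
    intro n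
    induction n with
    | zero =>
      intro u v
      simpa [kit] using hmin u v
    | succ n ih =>
      intro u v
      simp only [kit]
      have h1 : ∫ _ : Y, c ^ (n + 1 + 1) ∂μ = c ^ (n + 1 + 1) := by simp
      rw [← h1]
      refine integral_mono (integrable_const _) ?_ fun w => ?_
      · exact intble μ _ ((kit_cont' μ hk 0 continuous_const continuous_id).mul
          (kit_cont' μ hk n continuous_id continuous_const))
      · show c ^ (n + 1 + 1) ≤ k u w * kit μ k n w v
        rw [pow_succ']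
        exact mul_le_mul (hmin _ _) (ih _ _) (by positivity) (hp _ _).le
  refine ⟨c, hc, fun n => ?_⟩
  unfold trk
  have h1 : ∫ _ : Y, c ^ (n + 1) ∂μ = c ^ (n + 1) := by simp
  rw [← h1]
  exact integral_mono (integrable_const _)
    (intble μ _ (kit_cont' μ hk n continuous_id continuous_id)) fun w => hkit n w w

end main

/-- `S_KIT` -/
theorem t_KIT : S_KIT := by
  intro Y _ _ _ _ _ μ _ k hk hp hs
  exact ⟨kit_cont μ hk, kit_pos μ hk hp, kit_symm μ hk hs, kit_comp μ hk, kit_cs μ hk hs,
    trk_mul μ hk hp hs, trk_sq μ hk hs, trk_lower μ hk hp⟩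

end

end Pool.Agent.N899.SB.Kit
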