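import Mathlib
import Pool.Agent.N899.SB.Stm
import Pool.Agent.N899.SB.Kit
import Pool.Agent.N899.SB.Chain
import Pool.Agent.N899.SB.Entropic

/-!
# Mutual information of two time slices
-/

open MeasureTheory

namespace Pool.Agent.N899.SB

noncomputable section

variable {Y : Type} [TopologicalSpace Y] [CompactSpace Y]
  [SecondCountableTopology Y] [MeasurableSpace Y] [BorelSpace Y] (μ : Measure Y)
  [IsProbabilityMeasure μ]

lemma int_cont {f : Y × Y → ℝ} (hf : Continuous f) : Integrable f (μ.prod μ) :=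
  hf.integrable_of_hasCompactSupport (HasCompactSupport.of_compactSpace _)

lemma it_prod {f : Y → Y → ℝ} (hf : Continuous fun p : Y × Y => f p.1 p.2) :
    ∫ u, ∫ v, f u v ∂μ ∂μ = ∫ p, f p.1 p.2 ∂(μ.prod μ) :=
  (integral_prod (fun p : Y × Y => f p.1 p.2) (int_cont μ hf)).symm

theorem mutual_info {k : Y → Y → ℝ} (hk : Continuous fun p : Y × Y => k p.1 p.2)
    (hk0 : ∀ u v, 0 < k u v) (hks : ∀ u v, k u v = k v u) (a b : ℕ) {ι : Type} [DecidableEq ι]
    (s : Finset ι) {w : ι → Y → ℝ} (hw : ∀ i, Continuous (w i))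
    (hw1 : ∀ i x, 1 / 4 ≤ w i x ∧ w i x ≤ 3 / 4) {v0 δ : ℝ} {E : (Y → Y → ℝ) → ℝ}
    (hE : ∀ F : Y → Y → ℝ, E F = (∫ u, ∫ v, F u v * (kit μ k (2 * a + 1) u v *
      kit μ k (2 * b + 1) v u) ∂μ ∂μ) / trk μ k (2 * a + 1 + (2 * b + 1) + 1))
    (h1 : ∀ i ∈ s, ∀ γ : (ι → ℝ) → ℝ, Continuous γ →
      (∀ a b : ι → ℝ, (∀ j, j ≠ i → a j = b j) → γ a = γ b) →
      v0 ≤ E (fun u _ => (w i u - γ (fun j => w j u)) ^ 2))
    (hδ : ∀ i ∈ s, E (fun u v => (w i u - w i v) ^ 2) ≤ δ) :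
    s.card * (2 * v0 - 16 / 3 * δ) ≤ Real.log (trk μ k (2 * a + 1)) +
      Real.log (trk μ k (2 * b + 1)) - Real.log (trk μ k (2 * a + 1 + (2 * b + 1) + 1)) := by
  obtain ⟨kc, k0, ks, kcomp, kcs, -, -, c, hc, hct⟩ := Kit.t_KIT Y μ k hk hk0 hks
  have tpos : ∀ n, 0 < trk μ k n := fun n => lt_of_lt_of_le (by positivity) (hct n)
  obtain ⟨Z, hZ⟩ : ∃ Z, Z = trk μ k (2 * a + 1 + (2 * b + 1) + 1) := ⟨_, rfl⟩
  have hZ0 : 0 < Z := by rw [hZ]; exact tpos _
  rw [← hZ] at hE ⊢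
  obtain ⟨K, hK⟩ : ∃ K : Y → Y → ℝ, K = fun u v => kit μ k (2 * a + 1) u v *
    kit μ k (2 * b + 1) v u := ⟨_, rfl⟩
  have hKc : Continuous fun p : Y × Y => K p.1 p.2 := by
    rw [hK]
    exact (kc _).mul ((kc (2 * b + 1)).comp continuous_swap)
  have hK0 : ∀ u v, 0 < K u v := fun u v => by rw [hK]; exact mul_pos (k0 _ _ _) (k0 _ _ _)
  have hE' : ∀ F : Y → Y → ℝ, E F = (∫ u, ∫ v, F u v * K u v ∂μ ∂μ) / Z := fun F => by
    rw [hE F, hK]
  have hZK : Z = ∫ u, ∫ v, K u v ∂μ ∂μ := by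
    rw [hZ, hK]
    unfold trk
    refine integral_congr_ae (Filter.Eventually.of_forall fun u => ?_)
    exact (kcomp _ _ u u).symm
  have hEc : ∀ F : Y → Y → ℝ, (Continuous fun p : Y × Y => F p.1 p.2) →
      E F = (∫ p, F p.1 p.2 * K p.1 p.2 ∂(μ.prod μ)) / Z := fun F hF => by
    rw [hE' F, it_prod μ (hF.mul hKc)]
  -- linearity
  have Eadd : ∀ F H : Y → Y → ℝ, (Continuous fun p : Y × Y => F p.1 p.2) →
      (Continuous fun p : Y × Y => H p.1 p.2) → E (fun u v => F u v + H u v) = E F + E H := by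
    intro F H hF hH
    rw [hEc _ (hF.add hH), hEc F hF, hEc H hH, ← add_div]
    have i1 : Integrable (fun p : Y × Y => F p.1 p.2 * K p.1 p.2) (μ.prod μ) :=
      int_cont μ (hF.mul hKc)
    have i2 : Integrable (fun p : Y × Y => H p.1 p.2 * K p.1 p.2) (μ.prod μ) :=
      int_cont μ (hH.mul hKc)
    rw [← integral_add i1 i2]
    simp only [add_mul]
  have Esmul : ∀ (c : ℝ) (F : Y → Y → ℝ), E (fun u v => c * F u v) = c * E F := by
    intro c F
    rw [hE', hE', ← mul_div_assoc]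
    congr 1
    simp only [mul_assoc]
    simp only [integral_const_mul]
  have Emono : ∀ F H : Y → Y → ℝ, (Continuous fun p : Y × Y => F p.1 p.2) →
      (Continuous fun p : Y × Y => H p.1 p.2) → (∀ u v, F u v ≤ H u v) → E F ≤ E H := by
    intro F H hF hH h
    rw [hEc F hF, hEc H hH]
    refine div_le_div_of_nonneg_right ?_ hZ0.le
    exact integral_mono (int_cont μ (hF.mul hKc)) (int_cont μ (hH.mul hKc)) fun p =>
      mul_le_mul_of_nonneg_right (h _ _) (hK0 _ _).le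
  have hExq : Exq (fun F : Y → ℝ => E (fun u _ => F u)) := by
    refine ⟨fun F H hF hH => ?_, fun c F => Esmul c _, fun F hF => ?_, ?_⟩
    · exact Eadd (fun u _ => F u) (fun u _ => H u) (hF.comp continuous_fst)
        (hH.comp continuous_fst)
    · show 0 ≤ E (fun u _ => F u)
      rw [hE']
      refine div_nonneg (integral_nonneg fun u => integral_nonneg fun v => ?_) hZ0.le
      exact mul_nonneg (hF u) (hK0 u v).le
    · show E (fun _ _ => 1) = 1
      rw [hE']
      simp only [one_mul]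
      rw [← hZK, div_self hZ0.ne']
  -- the entropy of the random subset
  have e1 := Chain.t_CHAIN Y (fun F : Y → ℝ => E (fun u _ => F u)) hExq ι s w (fun _ => v0) hw hw1
    (fun i hi γ hγ hγ' => h1 i hi γ hγ hγ')
  have e2 := Entropic.t_ENTROPIC Y μ (kit μ k (2 * a + 1)) (kit μ k (2 * b + 1)) (kc _) (kc _)
    (k0 _) (k0 _) (kcs a) (kcs b) ι s w hw hw1 Z E (by rw [hZK, hK]) hE
  have hpos : ∀ i x, 0 < w i x ∧ 0 < 1 - w i x := fun i x => by
    obtain ⟨p1, p2⟩ := hw1 i x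
    constructor <;> linarith
  have cl : ∀ i, Continuous fun x => Real.log (w i x) := fun i =>
    (hw i).log fun x => (hpos i x).1.ne'
  have cl' : ∀ i, Continuous fun x => Real.log (1 - w i x) := fun i =>
    (continuous_const.sub (hw i)).log fun x => (hpos i x).2.ne'
  have ch2 : ∀ i, Continuous fun x => h2 (w i x) := fun i => by
    unfold h2
    exact (((hw i).mul (cl i)).add ((continuous_const.sub (hw i)).mul (cl' i))).neg
  have e3 : ∀ i ∈ s, -(E (fun u _ => h2 (w i u)) + 16 / 3 * δ) ≤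
      E (fun u v => w i u * Real.log (w i v) + (1 - w i u) * Real.log (1 - w i v)) := by
    intro i hi
    have c1 : Continuous fun p : Y × Y => (-1 : ℝ) * h2 (w i p.1) :=
      continuous_const.mul ((ch2 i).comp continuous_fst)
    have c2 : Continuous fun p : Y × Y => (-(16 / 3) : ℝ) * (w i p.1 - w i p.2) ^ 2 :=
      continuous_const.mul ((((hw i).comp continuous_fst).sub ((hw i).comp continuous_snd)).pow 2)
    have c3 : Continuous fun p : Y × Y => w i p.1 * Real.log (w i p.2) +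
        (1 - w i p.1) * Real.log (1 - w i p.2) :=
      (((hw i).comp continuous_fst).mul ((cl i).comp continuous_snd)).add
        ((continuous_const.sub ((hw i).comp continuous_fst)).mul ((cl' i).comp continuous_snd))
    have c12 : Continuous fun p : Y × Y => (-1 : ℝ) * h2 (w i p.1) +
        (-(16 / 3) : ℝ) * (w i p.1 - w i p.2) ^ 2 := c1.add c2
    have m1 := Emono (fun u v => (-1 : ℝ) * h2 (w i u) + (-(16 / 3) : ℝ) * (w i u - w i v) ^ 2)
      (fun u v => w i u * Real.log (w i v) + (1 - w i u) * Real.log (1 - w i v)) c12 c3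
      (fun u v => by
        have := Entropic.t_CROSS (w i u) (w i v) (hw1 i u).1 (hw1 i u).2 (hw1 i v).1 (hw1 i v).2
        linarith)
    rw [Eadd (fun u _ => (-1 : ℝ) * h2 (w i u))
      (fun u v => (-(16 / 3) : ℝ) * (w i u - w i v) ^ 2) c1 c2,
      Esmul (-1) (fun u _ => h2 (w i u)), Esmul (-(16 / 3)) (fun u v => (w i u - w i v) ^ 2)] at m1
    have := hδ i hi
    linarith
  have e4 := Finset.sum_le_sum e3
  have e5 : Real.log ((∫ u, kit μ k (2 * a + 1) u u ∂μ) * (∫ u, kit μ k (2 * b + 1) u u ∂μ) / Z) =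
      Real.log (trk μ k (2 * a + 1)) + Real.log (trk μ k (2 * b + 1)) - Real.log Z := by
    have t1 : (∫ u, kit μ k (2 * a + 1) u u ∂μ) = trk μ k (2 * a + 1) := rfl
    have t2 : (∫ u, kit μ k (2 * b + 1) u u ∂μ) = trk μ k (2 * b + 1) := rfl
    rw [t1, t2, Real.log_div (mul_pos (tpos _) (tpos _)).ne' hZ0.ne',
      Real.log_mul (tpos _).ne' (tpos _).ne']
  rw [e5] at e2
  have e6 : ∑ i ∈ s, -(E (fun u _ => h2 (w i u)) + 16 / 3 * δ) =
      -(∑ i ∈ s, E (fun u _ => h2 (w i u))) - s.card * (16 / 3 * δ) := by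
    rw [Finset.sum_neg_distrib, Finset.sum_add_distrib, Finset.sum_const, nsmul_eq_mul]
    ring
  have e7 : ∑ i ∈ s, (E (fun u _ => h2 (w i u)) + 2 * v0) =
      (∑ i ∈ s, E (fun u _ => h2 (w i u))) + s.card * (2 * v0) := by
    rw [Finset.sum_add_distrib, Finset.sum_const, nsmul_eq_mul]
  rw [e6] at e4
  rw [e7] at e1
  linarith

end

end Pool.Agent.N899.SB
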