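import Mathlib
import Pool.Agent.N899.SB.Stm

/-!
# The transfer matrix of lattice gauge theory is a continuous positive symmetric kernel
-/

set_option autoImplicit false

open MeasureTheory Pool.Agent.N899.SB

namespace Pool.Agent.N899.SB.Ker

theorem continuous_ac {G : Type} [Group G] [TopologicalSpace G] [IsTopologicalGroup G]
    {A : Type*} [AddCommGroup A] [Fintype A] {d : ℕ} (we : G → ℝ) (hwe : Continuous we)
    (e : Fin d → A) : Continuous (fun U : A × Fin d → G => ac we e U) := by
  unfold ac pq
  refine continuous_finsetSum _ fun x _ => continuous_finsetSum _ fun i _ =>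
    continuous_finsetSum _ fun j _ => ?_
  split_ifs
  · exact hwe.comp (by fun_prop)
  · exact continuous_const

theorem continuous_tmp {G : Type} [Group G] [TopologicalSpace G] [IsTopologicalGroup G]
    {D l : ℕ} [NeZero l] (we : G → ℝ) (hwe : Continuous we) :
    Continuous (fun p : (Sl D l G × Sl D l G) × ((Fin D → ZMod l) → G) =>
      tmp we p.1.1 p.2 p.1.2) := by
  unfold tmp
  refine continuous_finsetSum _ fun x _ => continuous_finsetSum _ fun i _ => ?_
  exact hwe.comp (by fun_prop)

theorem continuous_integrand {G : Type} [Group G] [TopologicalSpace G] [IsTopologicalGroup G]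
    {D l : ℕ} [NeZero l] (we : G → ℝ) (hwe : Continuous we) (β : ℝ) :
    Continuous (fun p : (Sl D l G × Sl D l G) × ((Fin D → ZMod l) → G) =>
      Real.exp (-(β * (1 / 2 * ac we (fun i => Pi.single i 1) p.1.1 +
        1 / 2 * ac we (fun i => Pi.single i 1) p.1.2 + tmp we p.1.1 p.2 p.1.2)))) := by
  have h1 := continuous_ac (A := Fin D → ZMod l) we hwe (fun i => Pi.single i 1)
  have h2 := continuous_tmp (D := D) (l := l) we hwe
  refine Real.continuous_exp.comp (Continuous.neg (continuous_const.mul ?_))
  exact ((continuous_const.mul (h1.comp (continuous_fst.comp continuous_fst))).add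
    (continuous_const.mul (h1.comp (continuous_snd.comp continuous_fst)))).add h2

theorem tmp_inv {G : Type} [Group G] {D l : ℕ} [NeZero l] (we : G → ℝ)
    (hinv : ∀ g, we g⁻¹ = we g) (hconj : ∀ g h, we (h * g * h⁻¹) = we g)
    (u v : Sl D l G) (W : (Fin D → ZMod l) → G) : tmp we u W⁻¹ v = tmp we v W u := by
  unfold tmp
  refine Finset.sum_congr rfl fun x _ => Finset.sum_congr rfl fun i _ => ?_
  rw [← hinv, ← hconj _ (W x)]
  congr 1
  simp only [Pi.inv_apply]
  group

theorem t_KER : S_KER := by
  intro G _ _ _ _ _ _ _ μ _ _ we hwe hinv hconj D l _ β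
  have hc := continuous_integrand (D := D) (l := l) we hwe β
  refine ⟨?_, ?_, ?_⟩
  · have := continuous_parametric_integral_of_continuous (μ := Measure.pi fun _ : Fin D → ZMod l => μ)
      (f := fun (p : Sl D l G × Sl D l G) (W : (Fin D → ZMod l) → G) =>
        Real.exp (-(β * (1 / 2 * ac we (fun i => Pi.single i 1) p.1 +
        1 / 2 * ac we (fun i => Pi.single i 1) p.2 + tmp we p.1 W p.2)))) hc isCompact_univ
    simp only [Measure.restrict_univ] at this
    exact this
  · intro u v
    have h0 : Continuous (fun W : (Fin D → ZMod l) → G => ((u, v), W)) :=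
      continuous_const.prodMk continuous_id
    have h1 := hc.comp h0
    exact integral_exp_pos (h1.integrable_of_hasCompactSupport
      (μ := Measure.pi fun _ : Fin D → ZMod l => μ) (HasCompactSupport.of_compactSpace _))
  · intro u v
    unfold ker
    rw [← integral_inv_eq_self]
    refine integral_congr_ae (Filter.Eventually.of_forall fun W => ?_)
    simp only
    rw [tmp_inv we hinv hconj]
    congr 1
    ring

end Pool.Agent.N899.SB.Ker
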