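import Mathlib
import Pool.Agent.N899.SB.Stm

/-! SB/RING (written by helper282 for the project SB of helper899):
path integral on a ring. -/

namespace Pool.Agent.N899.SB.Ring

open MeasureTheory Pool.Agent.N899.SB

noncomputable section

/-- the open chain -/
def P {Y : Type*} (k : Y → Y → ℝ) : (n : ℕ) → Y → (Fin n → Y) → Y → ℝ
  | 0 => fun u _ v => k u v
  | n + 1 => fun u V v => k u (V 0) * P k n (V 0) (Fin.tail V) v

theorem continuous_tail {Y : Type*} [TopologicalSpace Y] (n : ℕ) :
    Continuous (fun V : Fin (n + 1) → Y => (Fin.tail V : Fin n → Y)) := by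
  refine continuous_pi fun i => ?_
  exact continuous_apply _

theorem continuous_P {Y : Type*} [TopologicalSpace Y] (k : Y → Y → ℝ)
    (hk : Continuous (fun p : Y × Y => k p.1 p.2)) (n : ℕ) :
    Continuous (fun p : Y × (Fin n → Y) × Y => P k n p.1 p.2.1 p.2.2) := by
  induction n with
  | zero => exact hk.comp (continuous_fst.prodMk (continuous_snd.comp continuous_snd))
  | succ n ih =>
    have h1 : Continuous (fun p : Y × (Fin (n + 1) → Y) × Y => p.2.1 0) :=
      (continuous_apply 0).comp (continuous_fst.comp continuous_snd)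
    have h2 : Continuous (fun p : Y × (Fin (n + 1) → Y) × Y => (Fin.tail p.2.1 : Fin n → Y)) :=
      (continuous_tail n).comp (continuous_fst.comp continuous_snd)
    have h3 : Continuous (fun p : Y × (Fin (n + 1) → Y) × Y => p.2.2) :=
      continuous_snd.comp continuous_snd
    exact (hk.comp (continuous_fst.prodMk h1)).mul (ih.comp (h1.prodMk (h2.prodMk h3)))

/-- product formula for the chain -/
theorem P_eq_prod {Y : Type*} (k : Y → Y → ℝ) (n : ℕ) : ∀ (u : Y) (V : Fin n → Y) (v : Y),
    P k n u V v = ∏ i : Fin (n + 1), k ((Fin.cons u V : Fin (n + 1) → Y) i)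
      ((Fin.snoc V v : Fin (n + 1) → Y) i) := by
  induction n with
  | zero =>
    intro u V v
    rw [Fin.prod_univ_one]
    simp [P, Fin.snoc]
  | succ n ih =>
    intro u V v
    rw [Fin.prod_univ_succ]
    have h1 : P k (n + 1) u V v = k u (V 0) * P k n (V 0) (Fin.tail V) v := rfl
    rw [h1, ih]
    have h2 : k ((Fin.cons u V : Fin (n + 1 + 1) → Y) 0)
        ((Fin.snoc V v : Fin (n + 1 + 1) → Y) 0) = k u (V 0) := by
      rw [Fin.cons_zero]
      rfl
    rw [h2]
    congr 1
    · refine Finset.prod_congr rfl fun i _ => ?_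
      rw [Fin.cons_succ, Fin.cons_self_tail]
      congr 1
      refine Fin.lastCases ?_ (fun j => ?_) i
      · rw [Fin.snoc_last, Fin.succ_last, Fin.snoc_last]
      · rw [Fin.snoc_castSucc, Fin.succ_castSucc, Fin.snoc_castSucc]
        rfl

/-- the cyclic product -/
theorem cyc {Y : Type*} (k : Y → Y → ℝ) (n : ℕ) (U : ZMod (n + 1) → Y) :
    ∏ τ, k (U τ) (U (τ + 1)) = P k n (U (0 : Fin (n + 1))) (Fin.tail U) (U (0 : Fin (n + 1))) := by
  change ∏ τ : Fin (n + 1), k (U τ) (U (τ + 1 : Fin (n + 1))) = _
  rw [P_eq_prod]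
  have h0 : (Fin.cons (U (0 : Fin (n + 1))) (Fin.tail U) : Fin (n + 1) → Y) = U :=
    Fin.cons_self_tail (α := fun _ : Fin (n + 1) => Y) U
  rw [h0]
  refine Finset.prod_congr rfl fun i _ => ?_
  congr 1
  refine Fin.lastCases ?_ (fun j => ?_) i
  · rw [Fin.snoc_last, Fin.last_add_one]
  · rw [Fin.snoc_castSucc, Fin.coeSucc_eq_succ]
    rfl

section meas

variable {Y : Type} [TopologicalSpace Y] [CompactSpace Y]
  [SecondCountableTopology Y] [MeasurableSpace Y] [BorelSpace Y] (μ : Measure Y)
  [IsProbabilityMeasure μ]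

omit [BorelSpace Y] in
theorem integrable_cont {X : Type*} [TopologicalSpace X] [CompactSpace X] [MeasurableSpace X]
    [BorelSpace X] (ν : Measure X) [IsFiniteMeasure ν] (f : X → ℝ) (hf : Continuous f) :
    Integrable f ν := by
  obtain ⟨C, hC⟩ := isCompact_univ.exists_bound_of_continuousOn hf.continuousOn
  refine Integrable.of_bound hf.measurable.aestronglyMeasurable C ?_
  exact Filter.Eventually.of_forall fun x => hC x (Set.mem_univ x)

theorem integral_cons (n : ℕ) (f : (Fin (n + 1) → Y) → ℝ) (hf : Continuous f) :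
    ∫ V, f V ∂(Measure.pi fun _ => μ) =
      ∫ u, ∫ V, f (Fin.cons u V) ∂(Measure.pi fun _ : Fin n => μ) ∂μ := by
  have hmp := measurePreserving_piFinSuccAbove (fun _ : Fin (n + 1) => μ) 0
  have h1 := hmp.integral_comp' (fun y : Y × (Fin n → Y) => f (Fin.cons y.1 y.2))
  have h2 : ∀ V : Fin (n + 1) → Y,
      f (Fin.cons ((MeasurableEquiv.piFinSuccAbove (fun _ : Fin (n + 1) => Y) 0) V).1
        ((MeasurableEquiv.piFinSuccAbove (fun _ : Fin (n + 1) => Y) 0) V).2) = f V := by
    intro V
    congr 1
    exact Fin.cons_self_tail V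
  have h3 : ∫ V, f V ∂(Measure.pi fun _ => μ) =
      ∫ y, f (Fin.cons y.1 y.2) ∂(μ.prod (Measure.pi fun _ : Fin n => μ)) := by
    rw [← h1]
    exact integral_congr_ae (Filter.Eventually.of_forall fun V => (h2 V).symm)
  rw [h3]
  have hc : Continuous (fun y : Y × (Fin n → Y) => f (Fin.cons y.1 y.2)) := by
    refine hf.comp (continuous_pi fun i => ?_)
    refine Fin.cases ?_ (fun j => ?_) i
    · simpa using continuous_fst
    · have h4 : Continuous fun a : Y × (Fin n → Y) => a.2 j :=
        (continuous_apply j).comp continuous_snd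
      simpa using h4
  exact integral_prod (fun y : Y × (Fin n → Y) => f (Fin.cons y.1 y.2))
    (integrable_cont _ _ hc)

theorem continuous_kit (k : Y → Y → ℝ) (hk : Continuous (fun p : Y × Y => k p.1 p.2)) (n : ℕ) :
    Continuous (fun p : Y × Y => kit μ k n p.1 p.2) := by
  induction n with
  | zero => exact hk
  | succ n ih =>
    have hc : Continuous (fun q : (Y × Y) × Y => k q.1.1 q.2 * kit μ k n q.2 q.1.2) :=
      (hk.comp ((continuous_fst.comp continuous_fst).prodMk continuous_snd)).mul
        (ih.comp (continuous_snd.prodMk (continuous_snd.comp continuous_fst)))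
    obtain ⟨C, hC⟩ := isCompact_univ.exists_bound_of_continuousOn hc.continuousOn
    refine continuous_of_dominated (μ := μ)
      (F := fun (p : Y × Y) (w : Y) => k p.1 w * kit μ k n w p.2) (bound := fun _ => C)
      (fun p => ?_) (fun p => ?_) (integrable_const C) ?_
    · exact (hc.comp (continuous_const.prodMk continuous_id)
        : Continuous fun w : Y => k p.1 w * kit μ k n w p.2).measurable.aestronglyMeasurable
    · exact Filter.Eventually.of_forall fun w => hC (p, w) (Set.mem_univ _)
    · exact Filter.Eventually.of_forall fun w => hc.comp (continuous_id.prodMk continuous_const)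

theorem integral_P (k : Y → Y → ℝ) (hk : Continuous (fun p : Y × Y => k p.1 p.2)) (n : ℕ) :
    ∀ u v, ∫ V, P k n u V v ∂(Measure.pi fun _ : Fin n => μ) = kit μ k n u v := by
  induction n with
  | zero =>
    intro u v
    simp [P, kit]
  | succ n ih =>
    intro u v
    rw [integral_cons μ n]
    · change _ = ∫ w, k u w * kit μ k n w v ∂μ
      refine integral_congr_ae (Filter.Eventually.of_forall fun w => ?_)
      simp only [P, Fin.cons_zero, Fin.tail_cons]
      rw [integral_const_mul, ih]
    · exact (continuous_P k hk (n + 1)).comp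
        (continuous_const.prodMk (continuous_id.prodMk continuous_const))

theorem integral_gP (k : Y → Y → ℝ) (hk : Continuous (fun p : Y × Y => k p.1 p.2)) (g : Y → ℝ)
    (hg : Continuous g) : ∀ (n : ℕ) (s : ℕ) (hs : s < n) (u v : Y),
    ∫ V, g (V ⟨s, hs⟩) * P k n u V v ∂(Measure.pi fun _ : Fin n => μ) =
      ∫ w, g w * (kit μ k s u w * kit μ k (n - 1 - s) w v) ∂μ := by
  intro n
  induction n with
  | zero => intro s hs; omega
  | succ n ih =>
    intro s hs u v
    rw [integral_cons μ n]
    · cases s with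
      | zero =>
        refine integral_congr_ae (Filter.Eventually.of_forall fun w => ?_)
        have h0 : (⟨0, hs⟩ : Fin (n + 1)) = 0 := rfl
        simp only [P, h0, Fin.cons_zero, Fin.tail_cons]
        rw [integral_const_mul, integral_const_mul, integral_P μ k hk]
        simp [kit]
      | succ s =>
        have hs' : s < n := by omega
        have h0 : (⟨s + 1, hs⟩ : Fin (n + 1)) = Fin.succ ⟨s, hs'⟩ := rfl
        have h1 : ∀ w, ∫ V, g ((Fin.cons w V : Fin (n + 1) → Y) ⟨s + 1, hs⟩) *
            P k (n + 1) u (Fin.cons w V) v ∂(Measure.pi fun _ : Fin n => μ) =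
            ∫ x, k u w * (g x * (kit μ k s w x * kit μ k (n - 1 - s) x v)) ∂μ := by
          intro w
          rw [integral_const_mul, ← ih s hs' w v, ← integral_const_mul]
          refine integral_congr_ae (Filter.Eventually.of_forall fun V => ?_)
          simp only [P, h0, Fin.cons_zero, Fin.tail_cons, Fin.cons_succ]
          ring
        rw [integral_congr_ae (Filter.Eventually.of_forall h1)]
        have hks := continuous_kit μ k hk s
        have hkt := continuous_kit μ k hk (n - 1 - s)
        have hc : Continuous (fun q : Y × Y =>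
            k u q.1 * (g q.2 * (kit μ k s q.1 q.2 * kit μ k (n - 1 - s) q.2 v))) :=
          (hk.comp (continuous_const.prodMk continuous_fst)).mul
            ((hg.comp continuous_snd).mul
              ((hks.comp (continuous_fst.prodMk continuous_snd)).mul
                (hkt.comp (continuous_snd.prodMk continuous_const))))
        have hI : Integrable (Function.uncurry fun w x : Y =>
            k u w * (g x * (kit μ k s w x * kit μ k (n - 1 - s) x v))) (μ.prod μ) :=
          integrable_cont (μ.prod μ) _ hc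
        rw [integral_integral_swap hI]
        refine integral_congr_ae (Filter.Eventually.of_forall fun x => ?_)
        have h2 : n + 1 - 1 - (s + 1) = n - 1 - s := by omega
        change ∫ w, k u w * (g x * (kit μ k s w x * kit μ k (n - 1 - s) x v)) ∂μ =
          g x * ((∫ w, k u w * kit μ k s w x ∂μ) * kit μ k (n + 1 - 1 - (s + 1)) x v)
        rw [h2, ← integral_mul_const, ← integral_const_mul]
        refine integral_congr_ae (Filter.Eventually.of_forall fun w => ?_)
        simp only
        ring
    · exact (hg.comp (continuous_apply _)).mul ((continuous_P k hk (n + 1)).comp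
        (continuous_const.prodMk (continuous_id.prodMk continuous_const)))

theorem ring_one (k : Y → Y → ℝ) (hk : Continuous (fun p : Y × Y => k p.1 p.2)) (n : ℕ) :
    ∫ V : ZMod (n + 1) → Y, ∏ τ, k (V τ) (V (τ + 1)) ∂(Measure.pi fun _ => μ) = trk μ k n := by
  have h1 : (fun V : ZMod (n + 1) → Y => ∏ τ, k (V τ) (V (τ + 1))) =
      fun V => P k n (V (0 : Fin (n + 1))) (Fin.tail V) (V (0 : Fin (n + 1))) := by
    funext V; exact cyc k n V
  rw [h1]
  change ∫ V : Fin (n + 1) → Y, P k n (V 0) (Fin.tail V) (V 0) ∂(Measure.pi fun _ => μ) = _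
  rw [integral_cons μ n]
  · refine integral_congr_ae (Filter.Eventually.of_forall fun u => ?_)
    simp only [Fin.cons_zero, Fin.tail_cons]
    exact integral_P μ k hk n u u
  · exact (continuous_P k hk n).comp
      ((continuous_apply 0).prodMk ((continuous_tail n).prodMk (continuous_apply 0)))

theorem ring_two (k : Y → Y → ℝ) (hk : Continuous (fun p : Y × Y => k p.1 p.2)) (n s : ℕ)
    (hs : s ≤ n) (F : Y → Y → ℝ) (hF : Continuous (fun p : Y × Y => F p.1 p.2)) :
    ∫ V : ZMod (n + 2) → Y, F (V 0) (V ((s + 1 : ℕ) : ZMod (n + 2))) *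
      ∏ τ, k (V τ) (V (τ + 1)) ∂(Measure.pi fun _ => μ) =
    ∫ u, ∫ v, F u v * (kit μ k s u v * kit μ k (n - s) v u) ∂μ ∂μ := by
  have hidx : ((s + 1 : ℕ) : ZMod (n + 2)) = (Fin.succ ⟨s, by omega⟩ : Fin (n + 2)) := by
    apply Fin.ext
    change ((s + 1 : ℕ) : ZMod (n + 2)).val = s + 1
    rw [ZMod.val_natCast, Nat.mod_eq_of_lt (by omega)]
  have h1 : (fun V : ZMod (n + 2) → Y => F (V 0) (V ((s + 1 : ℕ) : ZMod (n + 2))) *
      ∏ τ, k (V τ) (V (τ + 1))) =
      fun V => F (V (0 : Fin (n + 2))) (V (Fin.succ ⟨s, by omega⟩ : Fin (n + 2))) *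
        P k (n + 1) (V (0 : Fin (n + 2))) (Fin.tail V) (V (0 : Fin (n + 2))) := by
    funext V
    rw [hidx, cyc k (n + 1) V]
    rfl
  rw [h1]
  change ∫ V : Fin (n + 2) → Y, F (V 0) (V (Fin.succ ⟨s, by omega⟩)) *
    P k (n + 1) (V 0) (Fin.tail V) (V 0) ∂(Measure.pi fun _ => μ) = _
  rw [integral_cons μ (n + 1)]
  · refine integral_congr_ae (Filter.Eventually.of_forall fun u => ?_)
    simp only [Fin.cons_zero, Fin.tail_cons, Fin.cons_succ]
    have := integral_gP μ k hk (F u) (hF.comp (continuous_const.prodMk continuous_id)) (n + 1) s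
      (by omega) u u
    rw [this]
    have h2 : n + 1 - 1 - s = n - s := by omega
    rw [h2]
  · have hp : Continuous fun V : Fin (n + 1 + 1) → Y =>
        (V 0, V (Fin.succ ⟨s, by omega⟩ : Fin (n + 1 + 1))) :=
      (continuous_apply (0 : Fin (n + 1 + 1))).prodMk
        (continuous_apply (Fin.succ ⟨s, by omega⟩ : Fin (n + 1 + 1)))
    have hF' : Continuous fun V : Fin (n + 1 + 1) → Y => F (V 0) (V (Fin.succ ⟨s, by omega⟩)) :=
      hF.comp hp
    refine Continuous.mul hF' ?_
    exact (continuous_P k hk (n + 1)).comp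
      ((continuous_apply 0).prodMk ((continuous_tail (n + 1)).prodMk (continuous_apply 0)))

end meas

theorem t_RING : S_RING := by
  intro Y _ _ _ _ _ μ _ k hk
  exact ⟨fun n => ring_one μ k hk n, fun n s hs F hF => ring_two μ k hk n s hs F hF⟩

end

end Pool.Agent.N899.SB.Ring
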