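import Mathlib
import Pool.Agent.N899.SB.Stm

/-!
# Decomposition of the torus path integral into time slices
-/

set_option autoImplicit false

open MeasureTheory Pool.Agent.N899.SB

namespace Pool.Agent.N899.SB.Slice

variable {G : Type} [Group G] {D l t : ℕ}

/-- the configuration with the spatial links `V` and the temporal links `W` -/
def psi (z : (ZMod t → Sl D l G) × (ZMod t → (Fin D → ZMod l) → G)) :
    St D l t × Fin (D + 1) → G :=
  fun q => Fin.lastCases (motive := fun _ => G) (z.2 q.1.2 q.1.1) (fun i => z.1 q.1.2 (q.1.1, i)) q.2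

lemma psi_cs (z : (ZMod t → Sl D l G) × (ZMod t → (Fin D → ZMod l) → G)) (x : Fin D → ZMod l)
    (τ : ZMod t) (i : Fin D) : psi z ((x, τ), i.castSucc) = z.1 τ (x, i) := by
  simp [psi]

lemma psi_last (z : (ZMod t → Sl D l G) × (ZMod t → (Fin D → ZMod l) → G)) (x : Fin D → ZMod l)
    (τ : ZMod t) : psi z ((x, τ), Fin.last D) = z.2 τ x := by
  simp [psi]

lemma slice_psi (z : (ZMod t → Sl D l G) × (ZMod t → (Fin D → ZMod l) → G)) :
    slice (psi z) = z.1 := by
  funext τ p
  exact psi_cs z p.1 τ p.2

/-- the decomposition of the action -/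
lemma ac_psi [NeZero l] [NeZero t] (we : G → ℝ)
    (z : (ZMod t → Sl D l G) × (ZMod t → (Fin D → ZMod l) → G)) :
    ac we (ev D l t) (psi z) = ∑ τ : ZMod t, (ac we (fun i => Pi.single i 1) (z.1 τ) +
      tmp we (z.1 τ) (z.2 τ) (z.1 (τ + 1))) := by
  unfold ac
  rw [Fintype.sum_prod_type_right]
  refine Finset.sum_congr rfl fun τ _ => ?_
  unfold tmp
  rw [← Finset.sum_add_distrib]
  refine Finset.sum_congr rfl fun x _ => ?_
  rw [Fin.sum_univ_castSucc]
  have h1 : ∑ j : Fin (D + 1), (if Fin.last D < j then we (pq (ev D l t) (psi z) (x, τ) (Fin.last D) j)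
      else 0) = 0 := by
    refine Finset.sum_eq_zero fun j _ => ?_
    rw [if_neg (not_lt.2 (Fin.le_last j))]
  rw [h1, add_zero, ← Finset.sum_add_distrib]
  refine Finset.sum_congr rfl fun i _ => ?_
  rw [Fin.sum_univ_castSucc, if_pos (Fin.castSucc_lt_last i)]
  have e1 : ∀ j : Fin D, ev D l t j.castSucc = (Pi.single j 1, 0) := fun j => by simp [ev]
  have e2 : ev D l t (Fin.last D) = (0, 1) := by simp [ev]
  congr 1
  · refine Finset.sum_congr rfl fun j _ => ?_
    simp only [Fin.castSucc_lt_castSucc_iff]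
    congr 2
    unfold pq
    rw [e1, e1, Prod.mk_add_mk, Prod.mk_add_mk, add_zero, psi_cs, psi_cs, psi_cs, psi_cs]
  · unfold pq
    rw [e1, e2, Prod.mk_add_mk, Prod.mk_add_mk, add_zero, add_zero, psi_cs, psi_last, psi_last,
      psi_cs]

section meas

variable [TopologicalSpace G] [SecondCountableTopology G] [MeasurableSpace G] [BorelSpace G]

lemma psi_cont : Continuous (psi : (ZMod t → Sl D l G) × (ZMod t → (Fin D → ZMod l) → G) → _) := by
  refine continuous_pi fun q => ?_
  obtain ⟨⟨x, τ⟩, j⟩ := q
  refine Fin.lastCases ?_ (fun i => ?_) j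
  · simp only [psi_last]
    fun_prop
  · simp only [psi_cs]
    fun_prop

/-- the decomposition of the measure -/
lemma map_psi [NeZero l] [NeZero t] (μ : Measure G) [IsProbabilityMeasure μ] :
    Measure.map (psi : (ZMod t → Sl D l G) × (ZMod t → (Fin D → ZMod l) → G) → _)
      ((Measure.pi fun _ => Measure.pi fun _ => μ).prod (Measure.pi fun _ => Measure.pi fun _ => μ)) =
      Measure.pi fun _ => μ := by
  refine (Measure.pi_eq fun s hs => ?_).symm
  have hm : Measurable (psi : (ZMod t → Sl D l G) × (ZMod t → (Fin D → ZMod l) → G) → _) :=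
    psi_cont.measurable
  rw [Measure.map_apply hm (MeasurableSet.univ_pi hs)]
  have hpre : (psi : (ZMod t → Sl D l G) × (ZMod t → (Fin D → ZMod l) → G) → _) ⁻¹'
      (Set.univ.pi s) =
      (Set.univ.pi fun τ : ZMod t => Set.univ.pi fun p : (Fin D → ZMod l) × Fin D =>
        s ((p.1, τ), p.2.castSucc)) ×ˢ
      (Set.univ.pi fun τ : ZMod t => Set.univ.pi fun x : Fin D → ZMod l =>
        s ((x, τ), Fin.last D)) := by
    ext z
    simp only [Set.mem_preimage, Set.mem_pi, Set.mem_univ, true_implies, Set.mem_prod]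
    constructor
    · intro h
      refine ⟨fun τ p => ?_, fun τ x => ?_⟩
      · have := h ((p.1, τ), p.2.castSucc)
        rwa [psi_cs] at this
      · have := h ((x, τ), Fin.last D)
        rwa [psi_last] at this
    · rintro ⟨h1, h2⟩ ⟨⟨x, τ⟩, j⟩
      refine Fin.lastCases ?_ (fun i => ?_) j
      · rw [psi_last]
        exact h2 τ x
      · rw [psi_cs]
        exact h1 τ (x, i)
  rw [hpre, Measure.prod_prod, Measure.pi_pi, Measure.pi_pi]
  simp only [Measure.pi_pi]
  rw [Fintype.prod_prod_type, Fintype.prod_prod_type_right, ← Finset.prod_mul_distrib]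
  refine Finset.prod_congr rfl fun τ _ => ?_
  rw [Fintype.prod_prod_type, ← Finset.prod_mul_distrib]
  refine Finset.prod_congr rfl fun x _ => ?_
  rw [Fin.prod_univ_castSucc]

end meas

theorem t_SLICE : S_SLICE := by
  intro G _ _ _ _ _ _ _ μ _ we hwe D l t _ _ β Φ hΦ
  -- continuity
  have hac : ∀ {A : Type} [AddCommGroup A] [Fintype A] {d : ℕ} (e : Fin d → A),
      Continuous (fun U : A × Fin d → G => ac we e U) := by
    intro A _ _ d e
    unfold ac
    refine continuous_finsetSum _ fun x _ => continuous_finsetSum _ fun i _ =>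
      continuous_finsetSum _ fun j _ => ?_
    split_ifs
    · unfold pq
      fun_prop
    · exact continuous_const
  have hslice : Continuous (fun U : St D l t × Fin (D + 1) → G => slice U) := by
    unfold slice
    fun_prop
  have hF : Continuous (fun U : St D l t × Fin (D + 1) → G =>
      Φ (slice U) * Real.exp (-(β * ac we (ev D l t) U))) :=
    (hΦ.comp hslice).mul (Real.continuous_exp.comp ((hac _).const_mul β).neg)
  rw [← map_psi, integral_map psi_cont.measurable.aemeasurable
    hF.stronglyMeasurable.aestronglyMeasurable]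
  have hG : Continuous (fun z : (ZMod t → Sl D l G) × (ZMod t → (Fin D → ZMod l) → G) =>
      Φ (slice (psi z)) * Real.exp (-(β * ac we (ev D l t) (psi z)))) := hF.comp psi_cont
  rw [integral_prod _ (hG.integrable_of_hasCompactSupport (HasCompactSupport.of_compactSpace _))]
  refine integral_congr_ae (Filter.Eventually.of_forall fun V => ?_)
  beta_reduce
  have h1 : ∀ W : ZMod t → (Fin D → ZMod l) → G,
      Φ (slice (psi (V, W))) * Real.exp (-(β * ac we (ev D l t) (psi (V, W)))) =
      Φ V * ∏ τ : ZMod t, Real.exp (-(β * (1 / 2 * ac we (fun i => Pi.single i 1) (V τ) +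
        1 / 2 * ac we (fun i => Pi.single i 1) (V (τ + 1)) + tmp we (V τ) (W τ) (V (τ + 1))))) := by
    intro W
    rw [slice_psi, ac_psi, ← Real.exp_sum]
    congr 2
    rw [Finset.sum_neg_distrib, ← Finset.mul_sum]
    congr 2
    have h2 : ∑ τ : ZMod t, ac we (fun i => Pi.single i 1) (V (τ + 1)) =
        ∑ τ : ZMod t, ac we (fun i => Pi.single i 1) (V τ) :=
      Fintype.sum_equiv (Equiv.addRight 1) _ _ fun τ => rfl
    rw [Finset.sum_add_distrib, Finset.sum_add_distrib, Finset.sum_add_distrib, ← Finset.mul_sum,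
      ← Finset.mul_sum, h2]
    ring
  simp only [h1]
  rw [integral_const_mul]
  congr 1
  exact integral_fintype_prod_eq_prod (fun τ : ZMod t => fun w : (Fin D → ZMod l) → G =>
    Real.exp (-(β * (1 / 2 * ac we (fun i => Pi.single i 1) (V τ) +
        1 / 2 * ac we (fun i => Pi.single i 1) (V (τ + 1)) + tmp we (V τ) w (V (τ + 1))))))

end Pool.Agent.N899.SB.Slice
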