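import Mathlib
import Pool.Agent.N899.SB.Stm

/-! Real sequences: subadditive and convex. -/

namespace Pool.Agent.N899.SB.Seq

open MeasureTheory Pool.Agent.N899.SB Filter Topology

theorem t_SEQ : S_SEQ := by
  intro b C I r R hsub hconv hlow hr hR hI t ht
  set u : ℕ → ℝ := fun i => if i = 0 then 0 else b i with hu
  have hu1 : ∀ i, 1 ≤ i → u i = b i := fun i hi => if_neg (by omega)
  have hsubu : Subadditive u := by
    intro m n
    rcases Nat.eq_zero_or_pos m with hm | hm
    · subst hm; simp [hu]
    · rcases Nat.eq_zero_or_pos n with hn | hn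
      · subst hn; simp [hu]
      · rw [hu1 _ hm, hu1 _ hn, hu1 _ (by omega)]
        exact hsub m n hm hn
  have hbdd : BddBelow (Set.range fun n => u n / n) := by
    refine ⟨min (-C) 0, ?_⟩
    rintro _ ⟨n, rfl⟩
    rcases Nat.eq_zero_or_pos n with hn | hn
    · subst hn; simp
    · have hn' : (0 : ℝ) < n := by exact_mod_cast hn
      refine (min_le_left _ _).trans ?_
      change -C ≤ u n / n
      rw [hu1 n hn, le_div_iff₀ hn']
      linarith [hlow n hn]
  have hlim := hsubu.tendsto_lim hbdd
  set κ := hsubu.lim with hκ
  have hF0 : ∀ i : ℕ, 1 ≤ i → 0 ≤ b i - i * κ := by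
    intro i hi
    have hi' : (0 : ℝ) < i := by exact_mod_cast hi
    have h := hsubu.lim_le_div hbdd (n := i) (by omega)
    rw [hu1 i hi, le_div_iff₀ hi'] at h
    linarith
  -- the increments are nonpositive
  have hinc : ∀ i : ℕ, 1 ≤ i → b (i + 1) - b i ≤ κ := by
    intro i hi
    by_contra hcon
    push Not at hcon
    set d := b (i + 1) - b i - κ with hd
    have hdpos : 0 < d := by linarith
    have h1 : ∀ j : ℕ, b (i + 1) - b i ≤ b (i + j + 1) - b (i + j) := by
      intro j
      induction j with
      | zero => simp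
      | succ j ih =>
        have := hconv (i + j) (by omega)
        have e1 : i + (j + 1) + 1 = i + j + 2 := by ring
        have e2 : i + (j + 1) = i + j + 1 := by ring
        rw [e1, e2]
        linarith
    have h2 : ∀ j : ℕ, b i + j * (κ + d) ≤ b (i + j) := by
      intro j
      induction j with
      | zero => simp
      | succ j ih =>
        have := h1 j
        have e2 : i + (j + 1) = i + j + 1 := by ring
        rw [e2]
        push_cast
        linarith
    have h3 := (hlim.eventually (gt_mem_nhds (show κ < κ + d / 2 by linarith)))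
    rw [eventually_atTop] at h3
    obtain ⟨N, hN⟩ := h3
    have h4 := hN (i + (N + i)) (by omega)
    rw [hu1 _ (by omega)] at h4
    have hpos : (0 : ℝ) < ((i + (N + i) : ℕ) : ℝ) := by
      have : 0 < i + (N + i) := by omega
      exact_mod_cast this
    rw [div_lt_iff₀ hpos] at h4
    have h5 := h2 (N + i)
    have h6 := hF0 i hi
    push_cast at h4 h5
    have hN0 : (0 : ℝ) ≤ N := Nat.cast_nonneg N
    nlinarith
  have hanti : ∀ i j : ℕ, 1 ≤ i → i ≤ j → b j - j * κ ≤ b i - i * κ := by
    intro i j hi hij
    induction j, hij using Nat.le_induction with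
    | base => exact le_rfl
    | succ j hj ih =>
      have := hinc j (by omega)
      push_cast
      linarith
  have hr' : (0 : ℝ) < r := by exact_mod_cast hr
  have ht' : (0 : ℝ) < t := by
    have : 0 < t := by omega
    exact_mod_cast this
  have h1 := hanti r (R - r) hr (by omega)
  have h2 := hF0 R (by omega)
  have h3 := hanti r t hr (by omega)
  have hc : ((R - r : ℕ) : ℝ) = R - r := by
    rw [Nat.cast_sub (by omega)]
  rw [hc] at h1
  have h4 : I ≤ 2 * (b r - r * κ) := by linarith
  have h5 : b r / r - b t / t = (b r - r * κ) / r - (b t - t * κ) / t := by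
    field_simp
    ring
  have h6 : (b t - t * κ) / t ≤ (b r - r * κ) / (2 * r) := by
    have h7 : (2 * r : ℝ) ≤ t := by exact_mod_cast ht
    calc (b t - t * κ) / t ≤ (b r - r * κ) / t := div_le_div_of_nonneg_right h3 ht'.le
      _ ≤ (b r - r * κ) / (2 * r) :=
        div_le_div_of_nonneg_left (hF0 r hr) (by positivity) h7
  have h8 : I / (4 * r) ≤ (b r - r * κ) / (2 * r) := by
    rw [div_le_div_iff₀ (by positivity) (by positivity)]
    nlinarith
  have h9 : (b r - r * κ) / r = 2 * ((b r - r * κ) / (2 * r)) := by field_simp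
  rw [h5, h9]
  linarith

end Pool.Agent.N899.SB.Seq
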